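import Pool.Agent.Helper5_Dich.Rules

section

/-!
# Cost of the derivations
-/

namespace Helper31Con.H5

open Function Filter Fm

variable {con : Fm} {g : ℕ → ℕ} {s₀ : ℕ} (I : Iface (Rel con g s₀)) (J : Iface RM) (u : Fm)

lemma parts {L D j V : ℕ} (h : V = nd (nd L D) j) : L ≤ V ∧ D ≤ V ∧ j ≤ V := by
  have h1 := lt_nd_l (nd L D) j
  have h2 := lt_nd_r (nd L D) j
  have h3 := lt_nd_l L D
  have h4 := lt_nd_r L D
  omega

lemma val_v14 (e : ℕ → ℕ) : (ndT (ndT (x 14) (x 8)) (x 10)).val e =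
    nd (nd (e 14) (e 8)) (e 10) := by
  simp [Tm.val]

/-- All instances before a bound. -/
lemma gg_step (hu : Two u) : ∃ f, PB f ∧ ∀ᶠ A in rich, ∀ (l : List ℕ) D j V a N M s,
    V = nd (nd (cN l) D) j → V ≤ N → a ≤ N → f N ≤ M →
    (∀ m < a, ∀ z ∈ l, Pr A s M (u.cl (as [z, m]))) →
    Pr A (f N * (s + 1)) M (gg J u a V) := by
  obtain ⟨f0, hf0, g0⟩ := hu.ft_fact J
  obtain ⟨c5, h5⟩ := R0 J u hu
  obtain ⟨c6, h6⟩ := R1 J u hu
  obtain ⟨f1, hf1, g1⟩ := eq_fact (x 5) .zero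
  obtain ⟨f2, hf2, g2⟩ := eq_fact (x 1) (x 5)
  obtain ⟨f3, hf3, g3⟩ := eq_fact (x 13) (ndT (ndT (x 14) (x 8)) (x 10))
  obtain ⟨f4, hf4, g4⟩ := eq_fact (x 9) (.succ (x 5))
  obtain ⟨C, hC⟩ : ∃ C, C = c5 + c6 + 1 := ⟨_, rfl⟩
  set F : ℕ → ℕ := fun N => f1 N + f2 N + f3 N + f4 N with hF
  have hFP : PB F := ((hf1.add hf2).add hf3).add hf4
  refine ⟨fun N => (N + 1) * (C + F N + f0 N) + (C * (N + 1) + F N + f0 N), ?_, ?_⟩
  · exact ((PB.id.add (PB.const 1)).mul (((PB.const _).add hFP).add hf0)).add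
      ((((PB.const _).mul (PB.id.add (PB.const 1))).add hFP).add hf0)
  filter_upwards [g0, h5, h6, g1, g2, g3, g4] with A g0 h5 h6 g1 g2 g3 g4
    l D j V a N M s hV hVN haN hM hj
  obtain ⟨hL, hD, hjV⟩ := parts hV
  have hFN : F N = f1 N + f2 N + f3 N + f4 N := rfl
  have hM' : (N + 1) * (C + F N + f0 N) + (C * (N + 1) + F N + f0 N) ≤ M := hM
  have hMc : ∀ c, c ≤ C → c * (N + 1) ≤ M := fun c hc =>
    mulle (S := C) (by omega) hc
  obtain ⟨q, hq⟩ : ∃ q, q = C + F N + f0 N * (s + 1) := ⟨_, rfl⟩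
  have key := chain (B := A) (P := fun i => gg J u i V) (s := q) (M := M) (a := a) ?_ ?_ a le_rfl
  · refine key.mono ?_ le_rfl
    calc (a + 1) * q ≤ (N + 1) * ((C + F N + f0 N) * (s + 1)) := by
          refine Nat.mul_le_mul (by omega) ?_
          rw [hq]; nlinarith
      _ = ((N + 1) * (C + F N + f0 N)) * (s + 1) := by ring
      _ ≤ _ := Nat.mul_le_mul_right _ (Nat.le_add_right _ _)
  · set e0 := as [0, 0, 0, 0, 0, 0, 0, 0, 0, 0, 0, 0, 0, V] with he0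
    have he0N : ∀ j, e0 j ≤ N := as_le (by
      simp only [List.forall_mem_cons, List.not_mem_nil, IsEmpty.forall_iff, implies_true,
        and_true]
      omega)
    have q1 := (g1 _ N he0N rfl).mono (M' := M) le_rfl (by omega)
    have q2 := h5 _ N M _ he0N (hMc _ (by omega)) q1
    have e1 : (GG J u 5).cl e0 = gg J u 0 V := GG_cl hu (by omega) e0
    rw [e1] at q2
    exact q2.mono (by omega) le_rfl
  · intro i hi n hn
    set e1 := as [0, i, 0, 0, 0, i, 0, 0, D, i + 1, j, 0, 0, V, cN l] with he1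
    have he1N : ∀ j, e1 j ≤ N := as_le (by
      simp only [List.forall_mem_cons, List.not_mem_nil, IsEmpty.forall_iff, implies_true,
        and_true]
      omega)
    have q0 : Pr A n M ((GG J u 5).cl e1) := by
      have e3 : (GG J u 5).cl e1 = gg J u i V := GG_cl hu (by omega) e1
      rw [e3]
      exact hn
    have q1 : Pr A (f0 N * (s + 1)) M ((FT u J 14).cl e1) := by
      have e3 : (FT u J 14).cl e1 =
          (FT u J 14).cl (as [0, i, 0, 0, 0, 0, 0, 0, 0, 0, 0, 0, 0, 0, cN l]) :=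
        hu.FT_cl (by omega) (by omega) rfl rfl
      rw [e3]
      exact g0 l i N M s (by omega) (by omega) (by omega) (hj i hi)
    have q2 := (g2 e1 N he1N rfl).mono (M' := M) le_rfl (by omega)
    have q3 := (g3 e1 N he1N (by rw [val_v14]; exact hV)).mono (M' := M) le_rfl (by omega)
    have q4 := (g4 e1 N he1N rfl).mono (M' := M) le_rfl (by omega)
    have q5 := h6 e1 N M _ _ _ _ _ he1N (hMc _ (by omega)) q0 q1 q2 q3 q4
    have e4 : (GG J u 9).cl e1 = gg J u (i + 1) V := GG_cl hu (by omega) e1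
    rw [e4] at q5
    exact q5.mono (by omega) le_rfl

/-- The final derivation in the positive alternative. -/
lemma top_step (hcon : IsCon con) (hu : Two u) : ∃ f, PB f ∧ ∀ᶠ A in rich,
    ∀ c L D j V K M₀ q y s n N M r, V = nd (nd L D) j → K = tw V V → K ≤ M₀ → D * q ≤ M₀ →
    q ≤ M₀ → y = 2 ^ q → n ≤ y → c ≤ N → V ≤ N → M₀ ≤ N → y ≤ N → s ≤ N → f N ≤ M →
    th 18 c V (XI I J u) ∈ A → Pr A r M (gg J u M₀ V) →
    Pr A r M (I.A 25 .zero (.num V) (.num c) (.num s)) →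
    Pr A r M (I.A 11 (.num s) .zero .zero .zero) →
    Pr A (f N * (r + 1)) M (con.cl (as [s, n])) := by
  obtain ⟨c2, h2⟩ := R2 I J u hcon hu
  obtain ⟨f1, hf1, g1⟩ := eq_fact (x 13) vT
  obtain ⟨f2, hf2, g2⟩ := tw_fact I
  obtain ⟨f3, hf3, g3⟩ := le_fact (x 12) (x 5)
  obtain ⟨f4, hf4, g4⟩ := le_fact (.mul (x 8) (x 14)) (x 5)
  obtain ⟨f5, hf5, g5⟩ := le_fact (x 14) (x 5)
  obtain ⟨f6, hf6, g6⟩ := ex2_fact I
  obtain ⟨f7, hf7, g7⟩ := le_fact (x 1) (x 9)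
  obtain ⟨L', hL'⟩ : ∃ L', L' = (thO 18 3 13 (XI I J u)).len := ⟨_, rfl⟩
  set F : ℕ → ℕ := fun N => f1 N + f2 N + f3 N + f4 N + f5 N + f6 N + f7 N + 1 with hF
  have hFP : PB F := (((((((hf1.add hf2).add hf3).add hf4).add hf5).add hf6).add hf7).add
    (PB.const 1))
  refine ⟨fun N => (c2 + L' + 1) * (N + 1) + (c2 + 1) * (F N + 1) + F N, ?_, ?_⟩
  · exact (((PB.const _).mul (PB.id.add (PB.const 1))).add ((PB.const _).mul
      (hFP.add (PB.const 1)))).add hFP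
  filter_upwards [h2, g1, g2, g3, g4, g5, g6, g7] with A h2 g1 g2 g3 g4 g5 g6 g7
    c L D j V K M₀ q y s n N M r hV hK hKM hDq hqM hy hny hcN hVN hMN hyN hsN hM hth q1 q2 q3
  obtain ⟨hL, hD, hjV⟩ := parts hV
  have hFN : F N = f1 N + f2 N + f3 N + f4 N + f5 N + f6 N + f7 N + 1 := rfl
  have hM' : (c2 + L' + 1) * (N + 1) + (c2 + 1) * (F N + 1) + F N ≤ M := hM
  have hMc : ∀ c, c ≤ c2 + L' + 1 → c * (N + 1) ≤ M := fun c hc =>
    mulle (S := c2 + L' + 1) (by omega) hc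
  set e0 := as [s, n, 0, c, 0, M₀, L, 0, D, y, j, 0, K, V, q] with he0
  have he0N : ∀ j, e0 j ≤ N := as_le (by
    simp only [List.forall_mem_cons, List.not_mem_nil, IsEmpty.forall_iff, implies_true, and_true]
    omega)
  have hthO : (thO 18 3 13 (XI I J u)).cl e0 = th 18 c V (XI I J u) := thO_cl' hcon hu e0
  obtain ⟨w, hw⟩ : ∃ w, w = r + F N := ⟨_, rfl⟩
  have p1 : Pr A w M ((thO 18 3 13 (XI I J u)).cl e0) := by
    refine (Pr.mem ?_ ?_).mono (show 1 ≤ w by omega) le_rfl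
    · rw [hthO]; exact hth
    · refine (Fm.len_cl he0N).trans ?_
      rw [← hL']
      exact hMc _ (by omega)
  have p2 : Pr A w M ((GG J u 5).cl e0) := by
    have e3 : (GG J u 5).cl e0 = gg J u M₀ V := GG_cl hu (by omega) e0
    rw [e3]
    exact q1.mono (by omega) le_rfl
  have p3 := (g1 e0 N he0N (by rw [val_vT]; exact hV)).mono
    (show f1 N ≤ w by omega) (show f1 N ≤ M by omega)
  have p4 : Pr A w M ((I.A 17 (x 13) (x 13) (x 12) .zero).cl e0) := by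
    rw [I.clA (by simp [Al])]
    have := (g2 N V V (by omega)).mono (show f2 N ≤ w by omega) (show f2 N ≤ M by omega)
    rw [← hK] at this
    exact this
  have p5 := (g3 e0 N he0N hKM).mono (show f3 N ≤ w by omega) (show f3 N ≤ M by omega)
  have p6 := (g4 e0 N he0N hDq).mono (show f4 N ≤ w by omega) (show f4 N ≤ M by omega)
  have p7 := (g5 e0 N he0N hqM).mono (show f5 N ≤ w by omega) (show f5 N ≤ M by omega)
  have p8 : Pr A w M ((I.A 16 (x 14) (x 9) .zero .zero).cl e0) := by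
    rw [I.clA (by simp [Al])]
    have := (g6 N q (by omega)).mono (show f6 N ≤ w by omega) (show f6 N ≤ M by omega)
    rw [← hy] at this
    exact this
  have p9 := (g7 e0 N he0N hny).mono (show f7 N ≤ w by omega) (show f7 N ≤ M by omega)
  have p10 : Pr A w M ((I.A 25 .zero (x 13) (x 3) (x 0)).cl e0) := by
    rw [I.clA (by simp [Al])]
    exact q2.mono (by omega) le_rfl
  have p11 : Pr A w M ((I.A 11 (x 0) .zero .zero .zero).cl e0) := by
    rw [I.clA (by simp [Al])]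
    exact q3.mono (by omega) le_rfl
  have s1 := h2 e0 N M w he0N (hMc _ (by omega)) (by
    simp only [List.forall_mem_cons]
    exact ⟨p1, p2, p3, p4, p5, p6, p7, p8, p9, p10, p11, by simp⟩)
  have e5 : con.cl e0 = con.cl (as [s, n]) := hcon.cl_congr rfl rfl
  rw [e5] at s1
  refine s1.mono ?_ le_rfl
  rw [hw]
  have := cost_aux' c2 (F N) r
  exact this.trans (Nat.mul_le_mul_right _ (le_mid _ _ _))

lemma free_cR {con : Fm} (h : Two con) {p q j : ℕ} (hj : (cR con p q).Free j) : j = p ∨ j = q := by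
  obtain ⟨h0, h1, (h2 | h2) | (h2 | h2) | h2⟩ := hj
  · exact absurd h2 h0
  · exact Or.inl h2.symm
  · exact absurd h2 h1
  · exact Or.inr h2.symm
  · have := h j h2
    omega

lemma free_cA {con : Fm} (h : Two con) {p j : ℕ} (hj : (cA con p).Free j) : j = p := by
  obtain ⟨h0, (h2 | h2) | ⟨h1, h2⟩⟩ := hj
  · exact absurd h2 h0
  · exact h2.symm
  · have := h j h2
    omega

lemma all_cl (hcon : IsCon con) (e : ℕ → ℕ) :
    (all 1 con).cl e = all 1 (con.sub 0 (.num (e 0))) := by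
  show all 1 _ = all 1 _
  refine congrArg (all 1) ?_
  rw [sub_sb_num]
  refine Fm.sb_congr fun k hk => ?_
  have := hcon.free k hk
  interval_cases k
  · rw [update_of_ne (show (0 : ℕ) ≠ 1 by omega), update_self]
  · rw [update_of_ne (show (1 : ℕ) ≠ 0 by omega), update_self]

/-- The refutation of the axiom. -/
lemma theta_step (hcon : IsCon con) (hu : Two u) {B₂ : List Fm}
    (hB₂ : ∀ T : List Fm, (∀ β ∈ B₂, β ∈ T) → (∀ β ∈ T, Fm.Sentence β) →
      ∀ V, sXI con u (pk I J u T) V → Pv T (th 18 (pk I J u T) V (XI I J u))) :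
    ∃ f, PB f ∧ ∀ᶠ A in rich, ∀ (T : List Fm) V c zT zA N M r, zT = lc T → c = pk I J u T →
    V ≤ N → c ≤ N → zA ≤ N → f N ≤ M → conS con T ∈ A →
    Pr A r M (imp (th 18 c V (XI I J u)) (imp (all 1 (con.sub 0 (.num zA))) .bot)) →
    Pr A r M (I.A 24 .zero (.num V) (.num c) (.num zA)) →
    Pr A r M (I.A 11 (.num zT) .zero .zero .zero) →
    (∀ β ∈ B₂, Pr A r M (I.A 12 (.num zT) (.num (fc β)) .zero .zero)) →
    Pr A (f N * (r + 1)) M (neg (th 18 c V (XI I J u))) := by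
  obtain ⟨c3, h3⟩ := R3 I J u hcon hu hB₂
  obtain ⟨c7, h7⟩ := R7 hcon
  obtain ⟨f1, hf1, g1⟩ := eq_fact (x 3) (ndT (x 7) (.num (lc [XI I J u])))
  obtain ⟨f2, hf2, g2⟩ := eq_fact (x 7) (x 0)
  set F : ℕ → ℕ := fun N => f1 N + f2 N + 1 with hF
  have hFP : PB F := (hf1.add hf2).add (PB.const 1)
  refine ⟨fun N => (c3 + c7 + con.len + 4) * (N + 1) +
    (c3 + 1) * ((c7 + 1) * ((F N + 1) + 1) + 1) + F N, ?_, ?_⟩
  · exact (((PB.const _).mul (PB.id.add (PB.const 1))).add ((PB.const _).mul (((PB.const _).mul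
      ((hFP.add (PB.const 1)).add (PB.const 1))).add (PB.const 1)))).add hFP
  filter_upwards [h3, h7, g1, g2] with A h3 h7 g1 g2
    T V c zT zA N M r hzT hc hVN hcN hzA hM hS q1 q2 q3 q4
  have hFN : F N = f1 N + f2 N + 1 := rfl
  have hM' : (c3 + c7 + con.len + 4) * (N + 1) +
    (c3 + 1) * ((c7 + 1) * ((F N + 1) + 1) + 1) + F N ≤ M := hM
  have hMc : ∀ c, c ≤ c3 + c7 + con.len + 4 → c * (N + 1) ≤ M := fun c hc =>
    mulle (S := c3 + c7 + con.len + 4) (by omega) hc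
  have hzc : zT ≤ c := by
    have := lt_nd_l (lc T) (lc [XI I J u])
    rw [hzT, hc]
    exact this.le
  have hFM : F N ≤ M := by omega
  obtain ⟨u0, hu0⟩ : ∃ u0, u0 = r + F N := ⟨_, rfl⟩
  -- consistency of `T`
  set e1 := as [zT, 0, 0, 0, 0, 0, 0, zT] with he1
  have he1N : ∀ j, e1 j ≤ N := as_le (by
    simp only [List.forall_mem_cons, List.not_mem_nil, IsEmpty.forall_iff, implies_true, and_true]
    omega)
  have p1 : Pr A u0 M ((all 1 con).cl e1) := by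
    have e3 : (all 1 con).cl e1 = conS con T := by
      rw [all_cl hcon]
      show all 1 (con.sub 0 (.num zT)) = _
      rw [hzT]; rfl
    rw [e3]
    refine (Pr.mem hS ?_).mono (show 1 ≤ u0 by omega) le_rfl
    have h4 := len_sub_le con (lc T)
    rw [← hzT] at h4
    have h5 : con.len * (zT + 1) ≤ con.len * (N + 1) := Nat.mul_le_mul_left _ (by omega)
    have h6 : (conS con T).len = (con.sub 0 (.num (lc T))).len + (1 + 1) + 1 := rfl
    rw [← hzT] at h6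
    have h7 : (con.len + 4) * (N + 1) ≤ M := hMc _ (by omega)
    rw [h6]
    nlinarith
  have p2 := (g2 e1 N he1N rfl).mono (show f2 N ≤ u0 by omega) (show f2 N ≤ M by omega)
  have s1 := h7 e1 N M u0 he1N (hMc _ (by omega)) (by
    simp only [List.forall_mem_cons]
    exact ⟨p1, p2, by simp⟩)
  obtain ⟨u1, hu1⟩ : ∃ u1, u1 = c7 * (u0 + 1) + u0 := ⟨_, rfl⟩
  set e0 := as [zA, 0, 0, c, 0, 0, 0, zT, 0, 0, 0, 0, 0, V] with he0
  have he0N : ∀ j, e0 j ≤ N := as_le (by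
    simp only [List.forall_mem_cons, List.not_mem_nil, IsEmpty.forall_iff, implies_true, and_true]
    omega)
  have hthO : (thO 18 3 13 (XI I J u)).cl e0 = th 18 c V (XI I J u) := thO_cl' hcon hu e0
  have t1 : Pr A u1 M ((imp (thO 18 3 13 (XI I J u)) (imp (all 1 con) .bot)).cl e0) := by
    have : (imp (thO 18 3 13 (XI I J u)) (imp (all 1 con) .bot)).cl e0 =
      imp ((thO 18 3 13 (XI I J u)).cl e0) (imp ((all 1 con).cl e0) .bot) := rfl
    rw [this, hthO, all_cl hcon]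
    exact q1.mono (by omega) le_rfl
  have t2 := (g1 e0 N he0N (by
    rw [val_ndT, Tm.val_num]
    show c = nd zT _
    rw [hc, hzT]; rfl)).mono (show f1 N ≤ u1 by omega) (show f1 N ≤ M by omega)
  have t3 : Pr A u1 M ((I.A 11 (x 7) .zero .zero .zero).cl e0) := by
    rw [I.clA (by simp [Al])]
    exact q3.mono (by omega) le_rfl
  have t4 : Pr A u1 M ((cA con 7).cl e0) := by
    have e3 : (cA con 7).cl e0 = (cA con 7).cl e1 := by
      refine Fm.cl_congr fun j hj => ?_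
      rw [free_cA hcon.two hj]; rfl
    rw [e3]
    exact s1.mono (by omega) le_rfl
  have t5 : Pr A u1 M ((I.A 24 .zero (x 13) (x 3) (x 0)).cl e0) := by
    rw [I.clA (by simp [Al])]
    exact q2.mono (by omega) le_rfl
  have s2 := h3 e0 N M u1 he0N (hMc _ (by omega)) (by
    intro α hα
    rcases List.mem_append.mp hα with hα | hα
    · have key : ∀ α ∈ [imp (thO 18 3 13 (XI I J u)) (imp (all 1 con) .bot),
          eq (x 3) (ndT (x 7) (.num (lc [XI I J u]))), I.A 11 (x 7) .zero .zero .zero, cA con 7,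
          I.A 24 .zero (x 13) (x 3) (x 0)], Pr A u1 M (α.cl e0) := by
        simp only [List.forall_mem_cons]
        exact ⟨t1, t2, t3, t4, t5, by simp⟩
      exact key α hα
    · obtain ⟨β, hβ, rfl⟩ := List.mem_map.mp hα
      rw [I.clA (by simp [Al]), Tm.cl_num]
      exact (q4 β hβ).mono (by omega) le_rfl)
  have e5 : (neg (thO 18 3 13 (XI I J u))).cl e0 = neg (th 18 c V (XI I J u)) := by
    show neg ((thO 18 3 13 (XI I J u)).cl e0) = _
    rw [hthO]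
  rw [e5] at s2
  have b0 : u0 ≤ (F N + 1) * (r + 1) := by rw [hu0]; exact ML.cost0 r (F N)
  have b1 : u1 ≤ ((c7 + 1) * ((F N + 1) + 1)) * (r + 1) := by rw [hu1]; exact ML.cost1 c7 b0
  have b2 := ML.cost1 c3 b1
  refine s2.mono (ML.cost_fin ((Nat.le_add_right _ u1).trans b2) ?_) le_rfl
  exact le_mid _ _ _

end Helper31Con.H5

end

section

/-!
# The derivations from the refutation of a version
-/

namespace Helper31Con.H5

open Function Filter Fm

variable {con : Fm} {g : ℕ → ℕ} {s₀ : ℕ} (I : Iface (Rel con g s₀)) (J : Iface RM) (u : Fm)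

/-- The instances below the threshold. -/
lemma low_step1 (hcon : IsCon con) (hu : Two u) : ∃ f, PB f ∧ ∀ᶠ A in rich,
    ∀ (l : List ℕ) D j V c K t n N M r, V = nd (nd (cN l) D) j → K = tw V V → t ∈ l → n < K →
    c ≤ N → K ≤ N → f N ≤ M → Pr A r M (neg (th 18 c V (XI I J u))) →
    Pr A (f N * (r + 1)) M (u.cl (as [t, n])) := by
  obtain ⟨c4, h4⟩ := R4 I J u hcon hu
  obtain ⟨f1, hf1, g1⟩ := eq_fact (x 13) vT
  obtain ⟨f2, hf2, g2⟩ := tw_fact I
  obtain ⟨f3, hf3, g3⟩ := le_fact (.succ (x 1)) (x 12)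
  obtain ⟨f4, hf4, g4⟩ := mem_fact J
  set F : ℕ → ℕ := fun N => f1 N + f2 N + f3 N + f4 N + 1 with hF
  have hFP : PB F := (((hf1.add hf2).add hf3).add hf4).add (PB.const 1)
  refine ⟨fun N => c4 * (N + 1) + (c4 + 1) * (F N + 1) + F N, ?_, ?_⟩
  · exact (((PB.const _).mul (PB.id.add (PB.const 1))).add ((PB.const _).mul
      (hFP.add (PB.const 1)))).add hFP
  filter_upwards [h4, g1, g2, g3, g4] with A h4 g1 g2 g3 g4
    l D j V c K t n N M r hV hK ht hn hcN hKN hM q1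
  obtain ⟨hL, hD, hjV⟩ := parts hV
  have htl := mem_le_cN ht
  have hVK := add_le_tw V V
  rw [← hK] at hVK
  have hFN : F N = f1 N + f2 N + f3 N + f4 N + 1 := rfl
  have hM' : c4 * (N + 1) + (c4 + 1) * (F N + 1) + F N ≤ M := hM
  set e0 := as [t, n, 0, c, 0, 0, cN l, 0, D, 0, j, 0, K, V] with he0
  have he0N : ∀ j, e0 j ≤ N := as_le (by
    simp only [List.forall_mem_cons, List.not_mem_nil, IsEmpty.forall_iff, implies_true, and_true]
    omega)
  have hthO : (thO 18 3 13 (XI I J u)).cl e0 = th 18 c V (XI I J u) := thO_cl' hcon hu e0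
  obtain ⟨w, hw⟩ : ∃ w, w = r + F N := ⟨_, rfl⟩
  have p1 : Pr A w M ((neg (thO 18 3 13 (XI I J u))).cl e0) := by
    have e5 : (neg (thO 18 3 13 (XI I J u))).cl e0 = neg (th 18 c V (XI I J u)) := by
      show neg ((thO 18 3 13 (XI I J u)).cl e0) = _
      rw [hthO]
    rw [e5]
    exact q1.mono (by omega) le_rfl
  have p2 := (g1 e0 N he0N (by rw [val_vT]; exact hV)).mono
    (show f1 N ≤ w by omega) (show f1 N ≤ M by omega)
  have p3 : Pr A w M ((I.A 17 (x 13) (x 13) (x 12) .zero).cl e0) := by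
    rw [I.clA (by simp [Al])]
    have := (g2 N V V (by omega)).mono (show f2 N ≤ w by omega) (show f2 N ≤ M by omega)
    rw [← hK] at this
    exact this
  have p4 := (g3 e0 N he0N (show n + 1 ≤ K by omega)).mono
    (show f3 N ≤ w by omega) (show f3 N ≤ M by omega)
  have p5 : Pr A w M ((J.A 0 (x 6) (x 0) .zero .zero).cl e0) := by
    rw [J.clA (by simp [Al])]
    exact (g4 l t N ht (by omega)).mono (by omega) (by omega)
  have s1 := h4 e0 N M w he0N (by omega) (by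
    simp only [List.forall_mem_cons]
    exact ⟨p1, p2, p3, p4, p5, by simp⟩)
  have e5 : u.cl e0 = u.cl (as [t, n]) := hu.cl_congr rfl rfl
  rw [e5] at s1
  refine s1.mono ?_ le_rfl
  rw [hw]
  exact (cost_aux' c4 (F N) r).trans (Nat.mul_le_mul_right _ (le_mid _ _ _))

/-- The instances from the advice. -/
lemma low_step2 (hcon : IsCon con) (hu : Two u) : ∃ f, PB f ∧ ∀ᶠ A in rich,
    ∀ (l : List ℕ) D j V c s N₀ q y t n N M r, V = nd (nd (cN l) D) j → t ∈ l → y = 2 ^ q →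
    y ≤ N₀ → n < D * (q + 1) → n ≤ N → V ≤ N → c ≤ N → s ≤ N → N₀ ≤ N → f N ≤ M →
    con.cl (as [s, N₀]) ∈ A → Pr A r M (neg (th 18 c V (XI I J u))) →
    Pr A r M (I.A 25 .zero (.num V) (.num c) (.num s)) →
    Pr A r M (I.A 11 (.num s) .zero .zero .zero) →
    Pr A (f N * (r + 1)) M (u.cl (as [t, n])) := by
  obtain ⟨c5, h5⟩ := R5 I J u hcon hu
  obtain ⟨c6, h6⟩ := R6 hcon
  obtain ⟨f1, hf1, g1⟩ := eq_fact (x 13) vT
  obtain ⟨f2, hf2, g2⟩ := ex2_fact I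
  obtain ⟨f3, hf3, g3⟩ := le_fact (x 15) (x 11)
  obtain ⟨f4, hf4, g4⟩ := le_fact (.succ (x 1)) (.mul (x 8) (.succ (x 14)))
  obtain ⟨f5, hf5, g5⟩ := mem_fact J
  obtain ⟨f6, hf6, g6⟩ := eq_fact (x 9) (x 0)
  obtain ⟨f7, hf7, g7⟩ := eq_fact (x 11) (x 1)
  set F : ℕ → ℕ := fun N => f1 N + f2 N + f3 N + f4 N + f5 N + f6 N + f7 N + 1 with hF
  have hFP : PB F := ((((((hf1.add hf2).add hf3).add hf4).add hf5).add hf6).add hf7).add
    (PB.const 1)
  refine ⟨fun N => (c5 + c6 + con.len) * (N + 1) +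
    (c5 + 1) * ((c6 + 1) * ((F N + 1) + 1) + 1) + F N, ?_, ?_⟩
  · exact (((PB.const _).mul (PB.id.add (PB.const 1))).add ((PB.const _).mul (((PB.const _).mul
      ((hFP.add (PB.const 1)).add (PB.const 1))).add (PB.const 1)))).add hFP
  filter_upwards [h5, h6, g1, g2, g3, g4, g5, g6, g7] with A h5 h6 g1 g2 g3 g4 g5 g6 g7
    l D j V c s N₀ q y t n N M r hV ht hy hyN hn hnN hVN hcN hsN hN₀ hM hax q1 q2 q3
  obtain ⟨hL, hD, hjV⟩ := parts hV
  have htl := mem_le_cN ht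
  have hqy : q < 2 ^ q := Nat.lt_two_pow_self
  rw [← hy] at hqy
  have hFN : F N = f1 N + f2 N + f3 N + f4 N + f5 N + f6 N + f7 N + 1 := rfl
  have hM' : (c5 + c6 + con.len) * (N + 1) +
    (c5 + 1) * ((c6 + 1) * ((F N + 1) + 1) + 1) + F N ≤ M := hM
  have hMc : ∀ c, c ≤ c5 + c6 + con.len → c * (N + 1) ≤ M := fun c hc =>
    mulle (S := c5 + c6 + con.len) (by omega) hc
  have hFM : F N ≤ M := by omega
  obtain ⟨u0, hu0⟩ : ∃ u0, u0 = r + F N := ⟨_, rfl⟩
  set e1 := as [s, N₀, 0, 0, 0, 0, 0, 0, 0, s, 0, N₀] with he1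
  have he1N : ∀ j, e1 j ≤ N := as_le (by
    simp only [List.forall_mem_cons, List.not_mem_nil, IsEmpty.forall_iff, implies_true, and_true]
    omega)
  have p1 : Pr A u0 M (con.cl e1) := by
    refine (Pr.mem ?_ ?_).mono (show 1 ≤ u0 by omega) le_rfl
    · have e3 : con.cl e1 = con.cl (as [s, N₀]) := hcon.cl_congr rfl rfl
      rw [e3]; exact hax
    · exact (Fm.len_cl he1N).trans (hMc _ (by omega))
  have p2 := (g6 e1 N he1N rfl).mono (show f6 N ≤ u0 by omega) (show f6 N ≤ M by omega)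
  have p3 := (g7 e1 N he1N rfl).mono (show f7 N ≤ u0 by omega) (show f7 N ≤ M by omega)
  have s1 := h6 e1 N M u0 he1N (hMc _ (by omega)) (by
    simp only [List.forall_mem_cons]
    exact ⟨p1, p2, p3, by simp⟩)
  obtain ⟨u1, hu1⟩ : ∃ u1, u1 = c6 * (u0 + 1) + u0 := ⟨_, rfl⟩
  set e0 := as [t, n, 0, c, 0, 0, cN l, 0, D, s, j, N₀, 0, V, q, y] with he0
  have he0N : ∀ j, e0 j ≤ N := as_le (by
    simp only [List.forall_mem_cons, List.not_mem_nil, IsEmpty.forall_iff, implies_true, and_true]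
    omega)
  have hthO : (thO 18 3 13 (XI I J u)).cl e0 = th 18 c V (XI I J u) := thO_cl' hcon hu e0
  have t1 : Pr A u1 M ((neg (thO 18 3 13 (XI I J u))).cl e0) := by
    have e5 : (neg (thO 18 3 13 (XI I J u))).cl e0 = neg (th 18 c V (XI I J u)) := by
      show neg ((thO 18 3 13 (XI I J u)).cl e0) = _
      rw [hthO]
    rw [e5]
    exact q1.mono (by omega) le_rfl
  have t2 := (g1 e0 N he0N (by rw [val_vT]; exact hV)).mono
    (show f1 N ≤ u1 by omega) (show f1 N ≤ M by omega)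
  have t3 : Pr A u1 M ((I.A 25 .zero (x 13) (x 3) (x 9)).cl e0) := by
    rw [I.clA (by simp [Al])]
    exact q2.mono (by omega) le_rfl
  have t4 : Pr A u1 M ((I.A 11 (x 9) .zero .zero .zero).cl e0) := by
    rw [I.clA (by simp [Al])]
    exact q3.mono (by omega) le_rfl
  have t5 : Pr A u1 M ((cR con 9 11).cl e0) := by
    have e3 : (cR con 9 11).cl e0 = (cR con 9 11).cl e1 := by
      refine Fm.cl_congr fun j hj => ?_
      rcases free_cR hcon.two hj with rfl | rfl <;> rfl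
    rw [e3]
    exact s1.mono (by omega) le_rfl
  have t6 : Pr A u1 M ((I.A 16 (x 14) (x 15) .zero .zero).cl e0) := by
    rw [I.clA (by simp [Al])]
    have := (g2 N q (by omega)).mono (show f2 N ≤ u1 by omega) (show f2 N ≤ M by omega)
    rw [← hy] at this
    exact this
  have t7 := (g3 e0 N he0N hyN).mono (show f3 N ≤ u1 by omega) (show f3 N ≤ M by omega)
  have t8 := (g4 e0 N he0N (show n + 1 ≤ D * (q + 1) by omega)).mono
    (show f4 N ≤ u1 by omega) (show f4 N ≤ M by omega)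
  have t9 : Pr A u1 M ((J.A 0 (x 6) (x 0) .zero .zero).cl e0) := by
    rw [J.clA (by simp [Al])]
    exact (g5 l t N ht (by omega)).mono (by omega) (by omega)
  have s2 := h5 e0 N M u1 he0N (hMc _ (by omega)) (by
    simp only [List.forall_mem_cons]
    exact ⟨t1, t2, t3, t4, t5, t6, t7, t8, t9, by simp⟩)
  have e5 : u.cl e0 = u.cl (as [t, n]) := hu.cl_congr rfl rfl
  rw [e5] at s2
  have b0 : u0 ≤ (F N + 1) * (r + 1) := by rw [hu0]; exact ML.cost0 r (F N)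
  have b1 : u1 ≤ ((c6 + 1) * ((F N + 1) + 1)) * (r + 1) := by rw [hu1]; exact ML.cost1 c6 b0
  have b2 := ML.cost1 c5 b1
  refine s2.mono (ML.cost_fin ((Nat.le_add_right _ u1).trans b2) ?_) le_rfl
  exact le_mid _ _ _

lemma fc_le_lc {T : List Fm} {β : Fm} (h : β ∈ T) : fc β ≤ lc T := by
  induction T with
  | nil => simp at h
  | cons φ T ih =>
    have h1 := lt_nd_l (fc φ) (lc T)
    have h2 := lt_nd_r (fc φ) (lc T)
    show fc β ≤ nd (fc φ) (lc T)
    rcases List.mem_cons.mp h with rfl | h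
    · omega
    · have := ih h
      omega

/-- All derivations from the refutation of a version. -/
lemma low_main (hcon : IsCon con) (hu : Two u) {F f' : ℕ → ℕ} (hFE : EB F) (hfE : EB f')
    (hbase : ∀ᶠ B in rich, Base I F B)
    (hdec : ∀ᶠ B in rich, ∀ N, ∀ j < 16, DecR I B (f' N) N j) {B₂ : List Fm}
    (hB₂t : ∀ β ∈ B₂, TrueS β)
    (hB₂ : ∀ T : List Fm, (∀ β ∈ B₂, β ∈ T) → (∀ β ∈ T, Fm.Sentence β) →
      ∀ V, sXI con u (pk I J u T) V → Pv T (th 18 (pk I J u T) V (XI I J u))) :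
    ∃ P, PB P ∧ ∀ᶠ T in rich, (∀ β ∈ T, Fm.Sentence β) → ∃ V₀, ∀ (l : List ℕ) D j V,
      V = nd (nd (cN l) D) j → V₀ ≤ V → ∀ ℓ N₀, Prov (SU I J u T V) ℓ .bot → N₀ ≤ ℓ →
      ∀ K, K = tw V V → ∀ t ∈ l, ∀ n, (n < K ∨ ∃ q, 2 ^ q ≤ N₀ ∧ n < D * (q + 1)) →
      Prov (conN con (SU I J u T V) N₀ :: conS con T :: T) (P (ℓ + K + n)) (u.cl (as [t, n])) := by
  obtain ⟨f1, hf1, g1⟩ := low_step1 I J u hcon hu
  obtain ⟨f2, hf2, g2⟩ := low_step2 I J u hcon hu
  obtain ⟨f3, hf3, g3⟩ := theta_step I J u hcon hu hB₂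
  obtain ⟨L', hL'⟩ : ∃ L', L' = (thO 18 3 13 (XI I J u)).len := ⟨_, rfl⟩
  set LL : ℕ → ℕ := fun n => 5 * (5 * (n + (con.len * (n + 1) + 3) + 2) + L' * (n + 1) + 2) + n
    with hLL
  have hLLP : PB LL := by
    have h1 : PB (fun n => n + 1) := PB.id.add (PB.const 1)
    exact ((PB.const 5).mul ((((PB.const 5).mul ((PB.id.add (((PB.const con.len).mul h1).add
      (PB.const 3))).add (PB.const 2))).add ((PB.const L').mul h1)).add (PB.const 2))).add PB.id
  set MM : ℕ → ℕ := fun n => f1 n + f2 n + f3 n + LL n with hMM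
  have hMMP : PB MM := ((hf1.add hf2).add hf3).add hLLP
  set s3 : ℕ → ℕ := fun n => f3 n * (26 * n + 1) + n with hs3
  have hs3P : PB s3 := (hf3.mul (((PB.const 26).mul PB.id).add (PB.const 1))).add PB.id
  set P : ℕ → ℕ := fun n => ((f1 n + f2 n) * (s3 n + 1)) * MM n with hP
  have hPP : PB P := ((hf1.add hf2).mul (hs3P.add (PB.const 1))).mul hMMP
  refine ⟨P, hPP, ?_⟩
  have hEE : EB (fun V => F V + Zb V + Tb con V + f' V + f' (Tb con V) + V + 1) :=
    (((((hFE.add Zb_eb).add (Tb_eb con)).add hfE).add (hfE.comp (Tb_eb con))).add EB.id).add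
      (EB.const 1)
  obtain ⟨h, hh⟩ := eb_le_tw hEE
  filter_upwards [rich_up g1, rich_up g2, rich_up g3, rich_up hbase, rich_up hdec,
    rich_list hB₂t] with T g1 g2 g3 hF hd hBT hT
  obtain ⟨c, hc⟩ : ∃ c, c = pk I J u T := ⟨_, rfl⟩
  refine ⟨h + c + lc T, ?_⟩
  intro l D j V hV hV₀ ℓ N₀ href hN₀ℓ K hK t ht n hn
  set A := conN con (SU I J u T V) N₀ :: conS con T :: T with hA
  have hTA : ∀ β ∈ T, β ∈ A := fun β hβ => List.mem_cons_of_mem _ (List.mem_cons_of_mem _ hβ)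
  replace g1 := g1 A hTA
  replace g2 := g2 A hTA
  replace g3 := g3 A hTA
  replace hF := hF A hTA
  replace hd := hd A hTA
  have hEV := hh V (by omega)
  rw [← hK] at hEV
  obtain ⟨s, hs⟩ : ∃ s, s = lc (SU I J u T V) := ⟨_, rfl⟩
  obtain ⟨zA, hzA⟩ : ∃ z, z = lc (AU I J u T V) := ⟨_, rfl⟩
  obtain ⟨zT, hzT⟩ : ∃ z, z = lc T := ⟨_, rfl⟩
  have hcd : CdT con 0 V c s := by rw [hc, hs]; exact cdT_iff.mpr rfl
  have hca : CdA 0 V c zA := by rw [hc, hzA]; exact cdA_iff.mpr rfl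
  have hsT : s ≤ Tb con V := cdT_le hcd (Nat.zero_le _) le_rfl (by omega)
  have hzAZ : zA ≤ Zb V := cdA_le hca (Nat.zero_le _) le_rfl (by omega)
  obtain ⟨X, hX⟩ : ∃ X, X = ℓ + K + n := ⟨_, rfl⟩
  rw [← hX]
  have hLLX : LL X = 5 * (5 * (X + (con.len * (X + 1) + 3) + 2) + L' * (X + 1) + 2) + X := rfl
  have hMX : MM X = f1 X + f2 X + f3 X + LL X := rfl
  have hs3X : s3 X = f3 X * (26 * X + 1) + X := rfl
  -- the refutation
  have q3 : Pr A (26 * X) (MM X) (imp (th 18 c V (XI I J u))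
      (imp (all 1 (con.sub 0 (.num zA))) .bot)) := by
    have r1 : Pr (conS con (AU I J u T V) :: AU I J u T V) ℓ ℓ .bot := href.pr
    have r2 := r1.ded (hcon.conS_sentence _)
    have r3 : Pr (th 18 (pk I J u T) V (XI I J u) :: T) (5 * ℓ)
        (5 * (ℓ + (conS con (AU I J u T V)).len + 2))
        (imp (conS con (AU I J u T V)) .bot) := r2
    have r4 := (r3.ded (th_sentence hcon hu V)).monoT hTA
    have l1 : (conS con (AU I J u T V)).len ≤ con.len * (X + 1) + 3 := by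
      have h4 := len_sub_le con (lc (AU I J u T V))
      rw [← hzA] at h4
      have h5 : con.len * (zA + 1) ≤ con.len * (X + 1) := Nat.mul_le_mul_left _ (by omega)
      show (con.sub 0 (.num (lc (AU I J u T V)))).len + (1 + 1) + 1 ≤ _
      rw [← hzA]
      omega
    have l2 : (th 18 (pk I J u T) V (XI I J u)).len ≤ L' * (X + 1) := by
      have h5 : (thO 18 3 13 (XI I J u)).cl
          (as [0, 0, 0, pk I J u T, 0, 0, 0, 0, 0, 0, 0, 0, 0, V]) =
          th 18 (pk I J u T) V (XI I J u) := thO_cl' hcon hu _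
      rw [← h5, hL']
      exact Fm.len_cl (as_le (by
        simp only [List.forall_mem_cons, List.not_mem_nil, IsEmpty.forall_iff, implies_true,
          and_true]
        omega))
    have h6 : all 1 (con.sub 0 (.num zA)) = conS con (AU I J u T V) := by rw [hzA]; rfl
    rw [h6, hc]
    exact r4.mono (by omega) (by omega)
  have q4 : Pr A (26 * X) (MM X) (I.A 24 .zero (.num V) (.num c) (.num zA)) :=
    (hF.cda V 0 V c zA (Nat.zero_le _) le_rfl (by omega) hca).mono (by omega) (by omega)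
  have q5 : Pr A (26 * X) (MM X) (I.A 11 (.num zT) .zero .zero .zero) :=
    ((hd V 11 (by omega) zT 0 0 0 (by omega) (by omega) (by omega) (by omega)).1
      ⟨T, hzT, hT⟩).mono (by omega) (by omega)
  have q6 : ∀ β ∈ B₂, Pr A (26 * X) (MM X) (I.A 12 (.num zT) (.num (fc β)) .zero .zero) := by
    intro β hβ
    have h7 := fc_le_lc (hBT β hβ)
    exact ((hd V 12 (by omega) zT (fc β) 0 0 (by omega) (by omega) (by omega) (by omega)).1
      ⟨T, β, hzT, rfl, hBT β hβ⟩).mono (by omega) (by omega)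
  have s1 := g3 T V c zT zA X (MM X) (26 * X) hzT hc (by omega) (by omega) (by omega) (by omega)
    (List.mem_cons_of_mem _ List.mem_cons_self) q3 q4 q5 q6
  have s1' : Pr A (s3 X) (MM X) (neg (th 18 c V (XI I J u))) := s1.mono (by omega) le_rfl
  have hPX : P X = ((f1 X + f2 X) * (s3 X + 1)) * MM X := rfl
  rw [hPX]
  rcases hn with hn | ⟨q, hq, hn⟩
  · have s2 := g1 l D j V c K t n X (MM X) (s3 X) hV hK ht hn (by omega) (by omega) (by omega) s1'
    exact (s2.mono (Nat.mul_le_mul_right _ (by omega)) le_rfl).prov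
  · have hax : con.cl (as [s, N₀]) ∈ A := by
      have e1 : conN con (SU I J u T V) N₀ = con.cl (as [s, N₀]) := by
        rw [hs]; exact hcon.conN_eq _ _
      rw [← e1]
      exact List.mem_cons_self
    have q7 : Pr A (s3 X) (MM X) (I.A 25 .zero (.num V) (.num c) (.num s)) :=
      (hF.cdt V 0 V c s (Nat.zero_le _) le_rfl (by omega) hcd).mono (by omega) (by omega)
    have q8 : Pr A (s3 X) (MM X) (I.A 11 (.num s) .zero .zero .zero) :=
      ((hd (Tb con V) 11 (by omega) s 0 0 0 (by omega) (by omega) (by omega) (by omega)).1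
        ⟨SU I J u T V, hs, SU_sentence hcon hu hT V⟩).mono (by omega) (by omega)
    have s2 := g2 l D j V c s N₀ q (2 ^ q) t n X (MM X) (s3 X) hV ht rfl hq hn (by omega)
      (by omega) (by omega) (by omega) (by omega) (by omega) hax s1' q7 q8
    exact (s2.mono (Nat.mul_le_mul_right _ (by omega)) le_rfl).prov

end Helper31Con.H5

end

section

/-!
# The positive alternative
-/

namespace Helper31Con.H5

open Function Filter Fm

lemma pb_le {f : ℕ → ℕ} (hf : PB f) : ∃ c, ∀ n, f n ≤ n ^ c + c := by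
  obtain ⟨C, q, hC⟩ := hf
  refine ⟨C + 2 * q + C * 3 ^ q, fun n => (hC n).trans ?_⟩
  rcases Nat.lt_or_ge n 2 with hn | hn
  · have h1 : (n + 2) ^ q ≤ 3 ^ q := Nat.pow_le_pow_left (by omega) q
    have h2 : C * (n + 2) ^ q ≤ C * 3 ^ q := Nat.mul_le_mul_left _ h1
    have h3 : C * 3 ^ q ≤ C + 2 * q + C * 3 ^ q := Nat.le_add_left _ _
    exact (h2.trans h3).trans (Nat.le_add_left _ _)
  · have h1 : n + 2 ≤ n ^ 2 := by nlinarith
    have h2 : C ≤ n ^ C := (Nat.lt_two_pow_self).le.trans (Nat.pow_le_pow_left hn _)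
    have h3 : (n + 2) ^ q ≤ n ^ (2 * q) := by
      rw [pow_mul]; exact Nat.pow_le_pow_left h1 q
    calc C * (n + 2) ^ q ≤ n ^ C * n ^ (2 * q) := Nat.mul_le_mul h2 h3
      _ = n ^ (C + 2 * q) := (pow_add _ _ _).symm
      _ ≤ n ^ (C + 2 * q + C * 3 ^ q) := Nat.pow_le_pow_right (by omega) (Nat.le_add_right _ _)
      _ ≤ _ := Nat.le_add_right _ _

lemma se_poly (c₁ : ℕ) : ∃ c, ∀ n q, 2 ^ q ≤ 2 * (n + 1) → 2 ^ (c₁ * (q + 1)) ≤ n ^ c + c := by
  have h1 : PB (fun n => (4 * (n + 1)) ^ c₁) :=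
    ((PB.const 4).mul (PB.id.add (PB.const 1))).pow c₁
  obtain ⟨c, hc⟩ := pb_le h1
  refine ⟨c, fun n q hq => le_trans ?_ (hc n)⟩
  have h2 : 2 ^ (q + 1) ≤ 4 * (n + 1) := by rw [pow_succ]; omega
  calc 2 ^ (c₁ * (q + 1)) = (2 ^ (q + 1)) ^ c₁ := by rw [Nat.mul_comm, pow_mul]
    _ ≤ (4 * (n + 1)) ^ c₁ := Nat.pow_le_pow_left h2 c₁

variable {con : Fm} {g : ℕ → ℕ} {s₀ : ℕ} (I : Iface (Rel con g s₀)) (J : Iface RM) (u : Fm)

/-- If the theory of a good version is consistent, there are short proofs. -/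
lemma pos_main (hcon : IsCon con) (hu : Two u) {F f' : ℕ → ℕ}
    (hbase : ∀ᶠ B in rich, Base I F B)
    (hdec : ∀ᶠ B in rich, ∀ N, ∀ j < 16, DecR I B (f' N) N j) :
    ∀ᶠ T in rich, (∀ β ∈ T, Fm.Sentence β) → ∀ (l : List ℕ) D j V C,
      V = nd (nd (cN l) D) j →
      (∀ t ∈ l, ∀ n, Prov T (2 ^ (C * (n + 1))) (u.cl (as [t, n]))) →
      (∀ n, ¬ Prov (SU I J u T V) n .bot) →
      ∃ c, ∀ n, Prov (AU I J u T V) (n ^ c + c) (conN con (SU I J u T V) n) := by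
  obtain ⟨f1, hf1, g1⟩ := gg_step J u hu
  obtain ⟨f2, hf2, g2⟩ := top_step I J u hcon hu
  filter_upwards [rich_up g1, rich_up g2, rich_up hbase, rich_up hdec] with
    T g1 g2 hF hd hT l D j V C hV hC hcons
  obtain ⟨c, hc⟩ : ∃ c, c = pk I J u T := ⟨_, rfl⟩
  set A := AU I J u T V with hA
  have hTA : ∀ β ∈ T, β ∈ A := fun β hβ => List.mem_cons_of_mem _ hβ
  replace g1 := g1 A hTA
  replace g2 := g2 A hTA
  replace hF := hF A hTA
  replace hd := hd A hTA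
  obtain ⟨K, hK⟩ : ∃ K, K = tw V V := ⟨_, rfl⟩
  obtain ⟨s, hs⟩ : ∃ s, s = lc (SU I J u T V) := ⟨_, rfl⟩
  have hcd : CdT con 0 V c s := by rw [hc, hs]; exact cdT_iff.mpr rfl
  obtain ⟨κ, hκ⟩ : ∃ κ, κ = F (V + c) + f' s := ⟨_, rfl⟩
  have q4 : Pr A κ κ (I.A 25 .zero (.num V) (.num c) (.num s)) :=
    (hF.cdt (V + c) 0 V c s (Nat.zero_le _) (by omega) (by omega) hcd).mono
      (by omega) (by omega)
  have q5 : Pr A κ κ (I.A 11 (.num s) .zero .zero .zero) :=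
    ((hd s 11 (by omega) s 0 0 0 (by omega) (by omega) (by omega) (by omega)).1
      ⟨SU I J u T V, hs, SU_sentence hcon hu hT V⟩).mono (by omega) (by omega)
  set M₀ : ℕ → ℕ := fun q => D * q + q + K with hM₀
  set NN : ℕ → ℕ := fun q => M₀ q + 2 ^ q + (c + V + s) with hNN
  set r₀ : ℕ → ℕ := fun q => 2 ^ (C * (D + 1) * q + C * (K + 1)) with hr₀
  set MM : ℕ → ℕ := fun q => f1 (NN q) + f2 (NN q) + r₀ q + κ with hMM
  set r₁ : ℕ → ℕ := fun q => f1 (NN q) * (r₀ q + 1) + κ with hr₁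
  set PP : ℕ → ℕ := fun q => (f2 (NN q) * (r₁ q + 1)) * MM q with hPP
  have z0 : SE M₀ := (((SE.const D).mul SE.id).add SE.id).add (SE.const K)
  have z1 : SE (fun K => 2 ^ K) := ⟨1, fun K => Nat.pow_le_pow_right (by omega) (by omega)⟩
  have z2 : SE NN := (z0.add z1).add (SE.const _)
  have z3 : SE r₀ := SE.lin 2 (C * (D + 1)) (C * (K + 1))
  have z4 : SE (fun q => f1 (NN q)) := SE.pb hf1 z2
  have z5 : SE (fun q => f2 (NN q)) := SE.pb hf2 z2
  have z6 : SE MM := ((z4.add z5).add z3).add (SE.const κ)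
  have z7 : SE r₁ := (z4.mul (z3.add (SE.const 1))).add (SE.const κ)
  have z8 : SE PP := (z5.mul (z7.add (SE.const 1))).mul z6
  obtain ⟨c₁, hc₁⟩ := z8
  obtain ⟨c₂, hc₂⟩ := se_poly c₁
  refine ⟨c₂, fun n => ?_⟩
  obtain ⟨q, hq1, hq2⟩ : ∃ q, n ≤ 2 ^ q ∧ 2 ^ q ≤ 2 * (n + 1) := by
    refine ⟨Nat.log 2 n + 1, (Nat.lt_pow_succ_log_self (by omega) n).le, ?_⟩
    rcases Nat.eq_zero_or_pos n with h0 | h0
    · subst h0; simp
    · have := Nat.pow_log_le_self 2 (x := n) (by omega)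
      rw [pow_succ]; omega
  rw [hcon.conN_eq]
  refine Prov.mono ?_ ((hc₁ q).trans (hc₂ n q hq2))
  have hM₀q : M₀ q = D * q + q + K := rfl
  have hNNq : NN q = M₀ q + 2 ^ q + (c + V + s) := rfl
  have hMMq : MM q = f1 (NN q) + f2 (NN q) + r₀ q + κ := rfl
  have hr₁q : r₁ q = f1 (NN q) * (r₀ q + 1) + κ := rfl
  have hPPq : PP q = (f2 (NN q) * (r₁ q + 1)) * MM q := rfl
  obtain ⟨y, hy⟩ : ∃ y, y = 2 ^ q := ⟨_, rfl⟩
  rw [← hy] at hNNq hq1
  have s1 : ∀ m < M₀ q, ∀ z ∈ l, Pr A (r₀ q) (MM q) (u.cl (as [z, m])) := by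
    intro m hm z hz
    have h1 := ((hC z hz m).pr).monoT hTA
    have h2 : 2 ^ (C * (m + 1)) ≤ r₀ q := by
      refine Nat.pow_le_pow_right (by omega) ?_
      calc C * (m + 1) ≤ C * (M₀ q + 1) := Nat.mul_le_mul_left _ (by omega)
        _ = C * (D + 1) * q + C * (K + 1) := by rw [hM₀q]; ring
    exact h1.mono h2 (by omega)
  have s2 := g1 l D j V (M₀ q) (NN q) (MM q) (r₀ q) hV (by omega) (by omega) (by omega) s1
  have s3 := g2 c (cN l) D j V K (M₀ q) q y s n (NN q) (MM q) (r₁ q) hV hK (by omega) (by omega)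
    (by omega) hy hq1 (by omega) (by omega) (by omega) (by omega) (by omega) (by omega)
    (by rw [hA, hc]; exact List.mem_cons_self) (s2.mono (by omega) le_rfl)
    (q4.mono (by omega) (by omega)) (q5.mono (by omega) (by omega))
  rw [← hs, hPPq]
  exact s3.prov

end Helper31Con.H5

end

section

/-!
# The negative alternative
-/

namespace Helper31Con.H5

open Function Filter Fm

/-! ### Numerical bounds -/

lemma lin_le_exp (A : ℕ) : ∀ x, 4 * A ≤ x → A * (x + 1) ≤ 2 ^ x := by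
  intro x hx
  have h1 : 2 * A + 1 ≤ 2 ^ (x / 2) := by
    have : x / 2 < 2 ^ (x / 2) := Nat.lt_two_pow_self
    omega
  have h2 : x - x / 2 + 1 ≤ 2 ^ (x - x / 2) := by
    have : x - x / 2 < 2 ^ (x - x / 2) := Nat.lt_two_pow_self
    omega
  have h3 : 2 ^ x = 2 ^ (x / 2) * 2 ^ (x - x / 2) := by
    rw [← pow_add]; congr 1; omega
  rw [h3]
  have h4 : x + 1 ≤ 2 * (x - x / 2 + 1) := by omega
  calc A * (x + 1) ≤ A * (2 * (x - x / 2 + 1)) := Nat.mul_le_mul_left _ h4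
    _ = 2 * A * (x - x / 2 + 1) := by ring
    _ ≤ 2 ^ (x / 2) * 2 ^ (x - x / 2) := Nat.mul_le_mul (by omega) h2

lemma asym (C a k : ℕ) : ∃ κ, 1 ≤ κ ∧ ∃ m₀, ∀ m, m₀ ≤ m → ∀ ℓ K, ℓ ≤ 2 * 2 ^ (m / κ) →
    K ≤ k * m + k + 1 → (C * (ℓ + K + k * m + 2) ^ a) ^ k ≤ 2 ^ m ∧ ℓ ^ k ≤ 2 ^ m := by
  obtain ⟨κ, hκ⟩ : ∃ κ, κ = 4 * ((a + 1) * (k + 1)) := ⟨_, rfl⟩
  have hκ1 : 1 ≤ κ := by
    have : 1 ≤ (a + 1) * (k + 1) := Nat.mul_pos (by omega) (by omega)
    omega
  obtain ⟨A, hA⟩ : ∃ A, A = 2 * k * κ + k + 3 := ⟨_, rfl⟩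
  refine ⟨κ, hκ1, κ * (4 * A) + 2 * (k * C + 2 * a * k + k), fun m hm ℓ K hℓ hK => ?_⟩
  obtain ⟨x, hx⟩ : ∃ x, x = m / κ := ⟨_, rfl⟩
  rw [← hx] at hℓ
  have hx1 : κ * x ≤ m := by rw [hx]; exact Nat.mul_div_le m κ
  have hx2 : m < κ * (x + 1) := by rw [hx]; exact Nat.lt_mul_div_succ m hκ1
  have hx3 : 4 * A ≤ x := by
    rw [hx, Nat.le_div_iff_mul_le hκ1, Nat.mul_comm]
    omega
  have h1 := lin_le_exp A x hx3
  have h2 : 2 * (k * m) + k + 3 ≤ A * (x + 1) := by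
    have i1 : k * m ≤ k * (κ * (x + 1)) := Nat.mul_le_mul_left _ hx2.le
    have i2 : A * (x + 1) = 2 * (k * (κ * (x + 1))) + (k + 3) * (x + 1) := by rw [hA]; ring
    have i3 : k + 3 ≤ (k + 3) * (x + 1) := Nat.le_mul_of_pos_right _ (by omega)
    omega
  have h3 : ℓ + K + k * m + 2 ≤ 2 ^ (x + 2) := by
    rw [pow_add]; omega
  have h4 : 4 * (a * k * x) ≤ m := by
    have i1 : 4 * (a * k * x) ≤ κ * x := by
      rw [hκ]
      calc 4 * (a * k * x) = 4 * (a * k) * x := by ring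
        _ ≤ 4 * ((a + 1) * (k + 1)) * x :=
          Nat.mul_le_mul_right _ (Nat.mul_le_mul_left _ (Nat.mul_le_mul (by omega) (by omega)))
    omega
  have h5 : 4 * (k * x) ≤ m := by
    have i1 : 4 * (k * x) ≤ κ * x := by
      rw [hκ]
      calc 4 * (k * x) = 4 * (1 * k) * x := by ring
        _ ≤ 4 * ((a + 1) * (k + 1)) * x :=
          Nat.mul_le_mul_right _ (Nat.mul_le_mul_left _ (Nat.mul_le_mul (by omega) (by omega)))
    omega
  constructor
  · have h6 : C * (ℓ + K + k * m + 2) ^ a ≤ 2 ^ (C + (x + 2) * a) := by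
      rw [pow_add, pow_mul]
      exact Nat.mul_le_mul Nat.lt_two_pow_self.le (Nat.pow_le_pow_left h3 a)
    calc (C * (ℓ + K + k * m + 2) ^ a) ^ k ≤ (2 ^ (C + (x + 2) * a)) ^ k :=
          Nat.pow_le_pow_left h6 k
      _ = 2 ^ ((C + (x + 2) * a) * k) := (pow_mul _ _ _).symm
      _ ≤ 2 ^ m := Nat.pow_le_pow_right (by omega) (by
        have i1 : (C + (x + 2) * a) * k = k * C + 2 * a * k + a * k * x := by ring
        rw [i1]; omega)
  · have h6 : ℓ ≤ 2 ^ (x + 1) := by rw [pow_succ]; omega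
    calc ℓ ^ k ≤ (2 ^ (x + 1)) ^ k := Nat.pow_le_pow_left h6 k
      _ = 2 ^ ((x + 1) * k) := (pow_mul _ _ _).symm
      _ ≤ 2 ^ m := Nat.pow_le_pow_right (by omega) (by
        have i1 : (x + 1) * k = k * x + k := by ring
        rw [i1]; omega)

lemma not_prov_zero {T : List Fm} {φ : Fm} : ¬ Prov T 0 φ := by
  rintro ⟨L, _, h⟩
  have := φ.len_pos
  rw [plen_cons] at h
  omega

variable {con : Fm} {g : ℕ → ℕ} {s₀ : ℕ} (I : Iface (Rel con g s₀)) (J : Iface RM) (u : Fm)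

/-- If all versions are refuted, there are short proofs of the instances. -/
lemma neg_main {T : List Fm} {P : ℕ → ℕ} (hP : PB P) {l : List ℕ} {V₀ : ℕ}
    (hlow : ∀ D j V, V = nd (nd (cN l) D) j → V₀ ≤ V → ∀ ℓ N₀, Prov (SU I J u T V) ℓ .bot →
      N₀ ≤ ℓ → ∀ K, K = tw V V → ∀ t ∈ l, ∀ n, (n < K ∨ ∃ q, 2 ^ q ≤ N₀ ∧ n < D * (q + 1)) →
      Prov (conN con (SU I J u T V) N₀ :: conS con T :: T) (P (ℓ + K + n)) (u.cl (as [t, n])))
    (hinc : ∀ D j, ∃ n, Prov (SU I J u T (nd (nd (cN l) D) j)) n .bot) {k : ℕ} (hk : 1 ≤ k)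
    (j₀ : ℕ) : ∃ m N V, j₀ ≤ m ∧ ¬ Prov (SU I J u T V) N .bot ∧ N ^ k ≤ 2 ^ m ∧
      ∃ L, L ^ k ≤ 2 ^ m ∧ ∀ t ∈ l, ∀ n ≤ k * m,
        Prov (conN con (SU I J u T V) N :: conS con T :: T) L (u.cl (as [t, n])) := by
  obtain ⟨C, a, hC⟩ := hP
  obtain ⟨κ, hκ, m₀, hm₀⟩ := asym C a k
  obtain ⟨D, hD⟩ : ∃ D, D = k * κ + 1 := ⟨_, rfl⟩
  obtain ⟨j, hj⟩ : ∃ j, j = k * (j₀ + m₀) + 1 + V₀ := ⟨_, rfl⟩
  obtain ⟨V, hV⟩ : ∃ V, V = nd (nd (cN l) D) j := ⟨_, rfl⟩
  have hjV := lt_nd_r (nd (cN l) D) j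
  rw [← hV] at hjV
  obtain ⟨K, hK⟩ : ∃ K, K = tw V V := ⟨_, rfl⟩
  have hVK := add_le_tw V V
  rw [← hK] at hVK
  have hex := hinc D j
  rw [← hV] at hex
  classical
  obtain ⟨ℓ, hℓ⟩ : ∃ ℓ, ℓ = Nat.find hex := ⟨_, rfl⟩
  have hℓ1 : Prov (SU I J u T V) ℓ .bot := by rw [hℓ]; exact Nat.find_spec hex
  have hℓ0 : ℓ ≠ 0 := by
    rintro rfl
    exact not_prov_zero hℓ1
  have hℓ2 : ¬ Prov (SU I J u T V) (ℓ - 1) .bot := Nat.find_min hex (by omega)
  obtain ⟨lam, hlam⟩ : ∃ lam, lam = Nat.log 2 ℓ := ⟨_, rfl⟩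
  have hl1 : 2 ^ lam ≤ ℓ := by rw [hlam]; exact Nat.pow_log_le_self 2 hℓ0
  have hl2 : ℓ < 2 ^ (lam + 1) := by rw [hlam]; exact Nat.lt_pow_succ_log_self (by omega) ℓ
  obtain ⟨m, hm⟩ : ∃ m, m = max ((K - 1) / k) (κ * lam) := ⟨_, rfl⟩
  have hm1 : (K - 1) / k ≤ m := by rw [hm]; exact le_max_left _ _
  have hm2 : κ * lam ≤ m := by rw [hm]; exact le_max_right _ _
  have hjm : j₀ + m₀ ≤ m := by
    refine le_trans ?_ hm1
    rw [Nat.le_div_iff_mul_le (by omega), Nat.mul_comm]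
    omega
  have hKm : K ≤ k * m + k + 1 := by
    have h1 := Nat.lt_mul_div_succ (K - 1) (show 0 < k by omega)
    have h2 : k * ((K - 1) / k + 1) ≤ k * (m + 1) := Nat.mul_le_mul_left _ (by omega)
    have h3 : k * (m + 1) = k * m + k := by ring
    omega
  have hℓm : ℓ ≤ 2 * 2 ^ (m / κ) := by
    have h1 : lam ≤ m / κ := by
      rw [Nat.le_div_iff_mul_le (by omega), Nat.mul_comm]; exact hm2
    have h2 : 2 ^ (lam + 1) ≤ 2 * 2 ^ (m / κ) := by
      rw [pow_succ, Nat.mul_comm]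
      exact Nat.mul_le_mul_left _ (Nat.pow_le_pow_right (by omega) h1)
    omega
  obtain ⟨h5, h6⟩ := hm₀ m (by omega) ℓ K hℓm hKm
  refine ⟨m, ℓ - 1, V, by omega, hℓ2, (Nat.pow_le_pow_left (by omega) k).trans h6,
    C * (ℓ + K + k * m + 2) ^ a, h5, fun t ht n hn => ?_⟩
  have h7 := hlow D j V hV (by omega) ℓ (ℓ - 1) hℓ1 (by omega) K hK t ht n ?_
  · refine h7.mono ((hC _).trans (Nat.mul_le_mul_left _ (Nat.pow_le_pow_left ?_ a)))
    omega
  · by_cases hcase : κ * lam ≤ (K - 1) / k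
    · left
      have h8 : m = (K - 1) / k := by rw [hm]; exact max_eq_left hcase
      have h9 : k * ((K - 1) / k) ≤ K - 1 := Nat.mul_div_le _ _
      rw [← h8] at h9
      omega
    · right
      have h8 : m = κ * lam := by rw [hm]; exact max_eq_right (by omega)
      obtain ⟨q, rfl⟩ : ∃ q, lam = q + 1 := by
        cases lam with
        | zero => simp at hcase
        | succ q => exact ⟨q, rfl⟩
      refine ⟨q, ?_, ?_⟩
      · have h9 : 1 ≤ 2 ^ q := Nat.one_le_two_pow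
        rw [pow_succ] at hl1
        omega
      · calc n ≤ k * m := hn
          _ = k * κ * (q + 1) := by rw [h8]; ring
          _ < (k * κ + 1) * (q + 1) := Nat.mul_lt_mul_of_pos_right (by omega) (by omega)
          _ = D * (q + 1) := by rw [hD]

end Helper31Con.H5

end

section

/-!
# The dichotomy for arbitrary theories
-/

namespace Helper31Con.H5

open Function Filter Fm

/-- The instances `u(t, n)` have proofs of simply exponential length. -/
def Gd (T : List Fm) (u : Fm) (t : ℕ) : Prop :=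
  ∃ c, ∀ n, Prov T (2 ^ (c * (n + 1))) (u.cl (as [t, n]))

lemma gd_list {T : List Fm} {u : Fm} (l : List ℕ) (h : ∀ t ∈ l, Gd T u t) :
    ∃ C, ∀ t ∈ l, ∀ n, Prov T (2 ^ (C * (n + 1))) (u.cl (as [t, n])) := by
  induction l with
  | nil => exact ⟨0, fun t ht => absurd ht (by simp)⟩
  | cons t l ih =>
    obtain ⟨C, hC⟩ := ih fun t' ht' => h t' (List.mem_cons_of_mem _ ht')
    obtain ⟨c, hc⟩ := h t List.mem_cons_self
    refine ⟨C + c, fun t' ht' n => ?_⟩
    rcases List.mem_cons.mp ht' with rfl | ht'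
    · exact (hc n).mono (Nat.pow_le_pow_right (by omega) (Nat.mul_le_mul_right _ (by omega)))
    · exact (hC t' ht' n).mono
        (Nat.pow_le_pow_right (by omega) (Nat.mul_le_mul_right _ (by omega)))

lemma gd_fin (T : List Fm) (u : Fm) (r : ℕ) : ∃ l : List ℕ, (∀ t ∈ l, Gd T u t) ∧
    ∀ t, Gd T u t → t ≤ r → t ∈ l := by
  classical
  refine ⟨(List.range (r + 1)).filter fun t => decide (Gd T u t), fun t ht => ?_,
    fun t ht htr => ?_⟩
  · rw [List.mem_filter] at ht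
    exact of_decide_eq_true ht.2
  · rw [List.mem_filter, List.mem_range]
    exact ⟨by omega, decide_eq_true ht⟩

lemma pow_le_of {N k r m : ℕ} (h : N ^ r ≤ 2 ^ m) (hk : k ≤ r) : N ^ k ≤ 2 ^ m := by
  rcases Nat.eq_zero_or_pos N with h0 | h0
  · subst h0
    calc 0 ^ k ≤ 1 := by
          cases k with
          | zero => simp
          | succ k => simp
      _ ≤ 2 ^ m := Nat.one_le_two_pow
  · exact (Nat.pow_le_pow_right h0 hk).trans h

/-- The dichotomy for arbitrary theories. -/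
theorem dich_main {con : Fm} (hcon : IsCon con) {u : Fm} (hu : Two u) {D₀ : List Fm}
    (hD₀ : ∀ φ ∈ D₀, TrueS φ)
    (hneg : ∀ t n, ¬ cP u t n → ∃ k, Prov D₀ k (neg (u.cl (as [t, n])))) :
    ∃ B : List Fm, (∀ φ ∈ B, TrueS φ) ∧ (∀ φ ∈ Q, φ ∈ B) ∧
      ∀ T : List Fm, (∀ φ ∈ T, Fm.Sentence φ) → (∀ φ ∈ B, φ ∈ T) →
      (∃ (ξ : Fm) (c : ℕ), Fm.Sentence ξ ∧ (∀ k, ¬ Prov (conS con (ξ :: T) :: ξ :: T) k .bot) ∧
        ∀ n, Prov (ξ :: T) (n ^ c + c) (conN con (conS con (ξ :: T) :: ξ :: T) n)) ∨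
      (∃ (m N : ℕ → ℕ) (ξ : ℕ → Fm),
        (∀ j, j ≤ m j ∧ Fm.Sentence (ξ j) ∧
          ¬ Prov (conS con (ξ j :: T) :: ξ j :: T) (N j) .bot) ∧
        ∀ k t : ℕ, Gd T u t → ∃ j₀, ∀ j ≥ j₀, N j ^ k ≤ 2 ^ m j ∧
          ∃ L, L ^ k ≤ 2 ^ m j ∧ ∀ n ≤ k * m j,
            Prov (conN con (conS con (ξ j :: T) :: ξ j :: T) (N j) :: conS con T :: T) L
              (u.cl (as [t, n]))) := by
  obtain ⟨I⟩ := exists_iface con (eq (x 1) (.succ (x 0))) (fun n => n + 1) 1 (fun e => Iff.rfl)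
    ⟨fun a b h => Nat.add_le_add_right h 1, le_rfl, fun n _ => Nat.lt_succ_self n⟩
  obtain ⟨J⟩ := exists_ifaceRM
  obtain ⟨F, hF, hFm, hbase⟩ := exists_base I hcon
  obtain ⟨f', hf', hdec⟩ := dec_all I
  obtain ⟨B₂, hB₂t, hB₂⟩ := rich_iff.mp (xi_compl I J u hcon hbase hdec hu hD₀ hneg)
  obtain ⟨P, hP, hlow⟩ := low_main I J u hcon hu hF hf' hbase hdec hB₂t hB₂
  obtain ⟨B₁, hB₁, hB₁'⟩ := rich_iff.mp (hlow.and (pos_main I J u hcon hu hbase hdec))
  refine ⟨B₁ ++ Q, fun β hβ => ?_, fun φ hφ => List.mem_append_right _ hφ, fun T hT hBT => ?_⟩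
  · rcases List.mem_append.mp hβ with h | h
    · exact hB₁ β h
    · exact Q_true β h
  obtain ⟨h1, h2⟩ := hB₁' T fun β hβ => hBT β (List.mem_append_left _ hβ)
  obtain ⟨V₀, h1⟩ := h1 hT
  replace h2 := h2 hT
  by_cases hcase : ∃ (l : List ℕ) (D j : ℕ), (∀ t ∈ l, Gd T u t) ∧
      ∀ n, ¬ Prov (SU I J u T (nd (nd (cN l) D) j)) n .bot
  · left
    obtain ⟨l, D, j, hl, hS⟩ := hcase
    obtain ⟨C, hC⟩ := gd_list l hl
    obtain ⟨c, hc⟩ := h2 l D j _ C rfl hC hS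
    exact ⟨_, c, th_sentence (I := I) (J := J) (T := T) hcon hu (nd (nd (cN l) D) j), hS, hc⟩
  · right
    push Not at hcase
    choose l hl1 hl2 using gd_fin T u
    have key : ∀ r : ℕ, ∃ m N V, r ≤ m ∧ ¬ Prov (SU I J u T V) N .bot ∧
        N ^ (r + 1) ≤ 2 ^ m ∧ ∃ L, L ^ (r + 1) ≤ 2 ^ m ∧ ∀ t ∈ l r, ∀ n ≤ (r + 1) * m,
          Prov (conN con (SU I J u T V) N :: conS con T :: T) L (u.cl (as [t, n])) := by
      intro r
      exact neg_main I J u hP (fun D j V hV hV₀ => h1 (l r) D j V hV hV₀)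
        (fun D j => hcase (l r) D j (hl1 r)) (by omega) r
    choose m N V hm hN hNk L hL hp using key
    refine ⟨m, N, fun j => th 18 (pk I J u T) (V j) (XI I J u), fun j => ⟨hm j,
      th_sentence (I := I) (J := J) (T := T) hcon hu (V j), hN j⟩, fun k t ht => ?_⟩
    refine ⟨k + t, fun j hj => ⟨pow_le_of (hNk j) (by omega), L j,
      pow_le_of (hL j) (by omega), fun n hn => ?_⟩⟩
    refine hp j t (hl2 j t ht (by omega)) n (hn.trans (Nat.mul_le_mul_right _ (by omega)))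

end Helper31Con.H5

end
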