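import Pool.Agent.Helper31_Dich.Top

section

/-!
# Families of instances of a formula with two free variables
-/

namespace Helper31Con.H5

open Function Filter Fm

/-- The free variables of the formula are among `x_0`, `x_1`. -/
def Two (u : Fm) : Prop := ∀ k, u.Free k → k < 2

lemma _root_.Helper31Con.IsCon.two {con : Fm} (hcon : IsCon con) : Two con := hcon.free

section

variable {u : Fm} (hu : Two u)
include hu

lemma Two.iff (e : ℕ → ℕ) : u.Sat e ↔ cP u (e 0) (e 1) := by
  refine Fm.sat_congr fun k hk => ?_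
  have := hu k hk
  interval_cases k <;> rfl

lemma Two.cl_congr {e e' : ℕ → ℕ} (h0 : e 0 = e' 0) (h1 : e 1 = e' 1) : u.cl e = u.cl e' := by
  refine Fm.cl_congr fun k hk => ?_
  have := hu k hk
  interval_cases k
  · exact h0
  · exact h1

lemma Two.sub_eq (t n : ℕ) : (u.sub 0 (.num t)).sub 1 (.num n) = u.cl (as [t, n]) := by
  rw [sub_sb_num, Fm.sub_num_sb (numSub_var.update_num 0 _) (by rw [update_of_ne (by omega)]) n]
  refine Fm.sb_congr fun k hk => ?_
  have := hu k hk
  interval_cases k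
  · rw [update_of_ne (by omega), update_self]; rfl
  · rw [update_self]; rfl

lemma Two.sat_FT {J : Iface RM} {q : ℕ} (hq : q ≠ 15) (e : ℕ → ℕ) :
    (FT u J q).Sat e ↔ ∀ z, MemF (e q) z → cP u z (e 1) := by
  have key : ∀ a, (all 0 (imp (J.A 0 (x 15) (x 0) .zero .zero) u)).Sat (update e 15 a) ↔
      ∀ z, MemF a z → cP u z (e 1) := by
    intro a
    refine forall_congr' fun z => ?_
    show (_ → _) ↔ (_ → _)
    rw [J.satA (by simp [Al]), hu.iff, update_self,
      update_of_ne (show (1 : ℕ) ≠ 0 by omega), update_of_ne (show (1 : ℕ) ≠ 15 by omega)]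
    refine imp_congr ?_ Iff.rfl
    show MemF ((x 15).val _) ((x 0).val _) ↔ _
    simp only [Tm.val]
    rw [update_self, update_of_ne (show (15 : ℕ) ≠ 0 by omega), update_self]
  constructor
  · intro h
    refine (key (e q)).mp (h (e q) ?_)
    show update e 15 (e q) 15 = update e 15 (e q) q
    rw [update_self, update_of_ne hq]
  · intro h a ha
    have ha' : update e 15 a 15 = update e 15 a q := ha
    rw [update_self, update_of_ne hq] at ha'
    rw [key, ha']; exact h

lemma Two.FT_cl {J : Iface RM} {q q' : ℕ} {e e' : ℕ → ℕ}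
    (hq : q ≠ 15) (hq' : q' ≠ 15) (h : e q = e' q') (h1 : e 1 = e' 1) :
    (FT u J q).cl e = (FT u J q').cl e' := by
  set σ : ℕ → Tm := update (fun k => Tm.num (e k)) 15 (x 15) with hσ
  set σ' : ℕ → Tm := update (fun k => Tm.num (e' k)) 15 (x 15) with hσ'
  have a1 : σ 15 = σ' 15 := by rw [hσ, hσ', update_self, update_self]
  have a2 : σ q = σ' q' := by
    rw [hσ, hσ', update_of_ne hq, update_of_ne hq', h]
  have a3 : (all 0 (imp (J.A 0 (x 15) (x 0) .zero .zero) u)).sb σ =
      (all 0 (imp (J.A 0 (x 15) (x 0) .zero .zero) u)).sb σ' := by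
    refine Fm.sb_congr fun j hj => ?_
    obtain ⟨h0, h2 | h2⟩ := hj
    · rcases J.free _ _ _ _ _ _ (by simp [Al]) (by simp [Al]) (by simp) (by simp) h2 with
        h3 | h3 | h3 | h3
      · have : j = 15 := h3.symm
        rw [this]; exact a1
      · exact absurd h3 h0
      · exact absurd h3 (by simp [Tm.Has])
      · exact absurd h3 (by simp [Tm.Has])
    · have h3 := hu j h2
      have : j = 1 := by omega
      rw [this, hσ, hσ', update_of_ne (by omega), update_of_ne (by omega), h1]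
  show all 15 (imp (eq (σ 15) (σ q)) _) = all 15 (imp (eq (σ' 15) (σ' q')) _)
  rw [a1, a2, a3]

/-- The instances for a family, from the instances for its members. -/
lemma Two.ft_fact (J : Iface RM) : ∃ f, PB f ∧ ∀ᶠ B in rich,
    ∀ (l : List ℕ) y N M n, cN l ≤ N → y ≤ N → f N ≤ M →
    (∀ z ∈ l, Pr B n M (u.cl (as [z, y]))) →
    Pr B (f N * (n + 1)) M ((FT u J 14).cl (as [0, y, 0, 0, 0, 0, 0, 0, 0, 0, 0, 0, 0, 0, cN l])) := by
  obtain ⟨c0, h0⟩ := horn1 (α := eq (x 14) .zero) (β := FT u J 14) (fun e h => by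
    rw [hu.sat_FT (by omega)]
    have h' : e 14 = 0 := h
    intro z hz
    rw [h'] at hz
    exact absurd hz memF_zero)
  obtain ⟨c1, h1⟩ := horn3 (α₁ := FT u J 13) (α₂ := u) (α₃ := eq (x 14) (ndT (x 0) (x 13)))
    (β := FT u J 14) (fun e h1 h2 h3 => by
      rw [hu.sat_FT (by omega)] at h1 ⊢
      rw [hu.iff] at h2
      have h3' : e 14 = nd (e 0) (e 13) := by
        have : (x 14).val e = (ndT (x 0) (x 13)).val e := h3
        simpa [Tm.val] using this
      intro z hz
      rw [h3'] at hz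
      rcases memF_inv hz with rfl | hz
      · exact h2
      · exact h1 z hz)
  obtain ⟨f, hf, g0⟩ := eq_fact (x 14) .zero
  obtain ⟨f', hf', g1⟩ := eq_fact (x 14) (ndT (x 0) (x 13))
  refine ⟨fun N => (N + 1) * (c0 + c1 + f N + f' N + 1) + ((c0 + c1) * (N + 1) + f N + f' N), ?_, ?_⟩
  · exact ((PB.id.add (PB.const 1)).mul ((((PB.const _).add hf).add hf').add (PB.const 1))).add
      ((((PB.const _).mul (PB.id.add (PB.const 1))).add hf).add hf')
  filter_upwards [h0, h1, g0, g1] with B h0 h1 g0 g1 l y N M n hl hy hM hz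
  have hM' : (N + 1) * (c0 + c1 + f N + f' N + 1) + ((c0 + c1) * (N + 1) + f N + f' N) ≤ M := hM
  have hc : ∀ c, c ≤ c0 + c1 → c * (N + 1) ≤ M := fun c hc => mulle (S := c0 + c1) (by omega) hc
  have key : ∀ l : List ℕ, cN l ≤ N → (∀ z ∈ l, Pr B n M (u.cl (as [z, y]))) →
      Pr B ((l.length + 1) * (c0 + c1 + f N + f' N + n)) M
      ((FT u J 14).cl (as [0, y, 0, 0, 0, 0, 0, 0, 0, 0, 0, 0, 0, 0, cN l])) := by
    intro l
    induction l with
    | nil =>
      intro _ _
      have he : ∀ j, as [0, y, 0, 0, 0, 0, 0, 0, 0, 0, 0, 0, 0, 0, 0] j ≤ N := as_le (by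
        simp only [List.forall_mem_cons, List.not_mem_nil, IsEmpty.forall_iff, implies_true,
          and_true]
        omega)
      have q := g0 _ N he rfl
      have := h0 _ N M (f N) he (hc _ (by omega)) (q.mono le_rfl (by omega))
      refine Pr.mono this ?_ le_rfl
      simp only [List.length_nil]
      omega
    | cons z l ih =>
      intro hl hz
      have hl1 := lt_nd_r z (cN l)
      have hl2 := lt_nd_l z (cN l)
      have hl' : nd z (cN l) ≤ N := hl
      have ih' := ih (by omega) fun z' hz' => hz z' (List.mem_cons_of_mem _ hz')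
      set e0 := as [z, y, 0, 0, 0, 0, 0, 0, 0, 0, 0, 0, 0, cN l, nd z (cN l)] with he0
      have he : ∀ j, e0 j ≤ N := as_le (by
        simp only [List.forall_mem_cons, List.not_mem_nil, IsEmpty.forall_iff, implies_true,
          and_true]
        omega)
      have q := g1 e0 N he (by rw [val_ndT]; rfl)
      have q1 : Pr B ((l.length + 1) * (c0 + c1 + f N + f' N + n)) M ((FT u J 13).cl e0) := by
        have e1 : (FT u J 13).cl e0 =
            (FT u J 14).cl (as [0, y, 0, 0, 0, 0, 0, 0, 0, 0, 0, 0, 0, 0, cN l]) :=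
          hu.FT_cl (by omega) (by omega) rfl rfl
        rw [e1]; exact ih'
      have q2 : Pr B n M (u.cl e0) := by
        have e1 : u.cl e0 = u.cl (as [z, y]) := hu.cl_congr rfl rfl
        rw [e1]; exact hz z List.mem_cons_self
      have := h1 e0 N M _ _ (f' N) he (hc _ (by omega)) q1 q2 (q.mono le_rfl (by omega))
      have e2 : (FT u J 14).cl e0 = (FT u J 14).cl
          (as [0, y, 0, 0, 0, 0, 0, 0, 0, 0, 0, 0, 0, 0, nd z (cN l)]) :=
        hu.FT_cl (by omega) (by omega) rfl rfl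
      rw [e2] at this
      refine Pr.mono this ?_ le_rfl
      have e1 : ((z :: l).length + 1) * (c0 + c1 + f N + f' N + n) =
          (l.length + 1) * (c0 + c1 + f N + f' N + n) + (c0 + c1 + f N + f' N + n) := by
        rw [List.length_cons]; ring
      omega
  refine (key l hl hz).mono ?_ le_rfl
  have h2 := length_le_cN l
  have h3 : c0 + c1 + f N + f' N + n ≤ (c0 + c1 + f N + f' N + 1) * (n + 1) := by nlinarith
  calc (l.length + 1) * (c0 + c1 + f N + f' N + n)
      ≤ (N + 1) * ((c0 + c1 + f N + f' N + 1) * (n + 1)) := Nat.mul_le_mul (by omega) h3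
    _ = ((N + 1) * (c0 + c1 + f N + f' N + 1)) * (n + 1) := by ring
    _ ≤ _ := Nat.mul_le_mul_right _ (Nat.le_add_right _ _)

end

/-! ### Membership, in general -/

lemma memF_cases {a z : ℕ} (h : MemF a z) : ∃ y a', a = nd y a' ∧ (z = y ∨ MemF a' z) := by
  obtain ⟨f, n, h0, h1, a', h2⟩ := h
  cases n with
  | zero => exact ⟨z, a', by rw [← h0]; exact h2, Or.inl rfl⟩
  | succ n =>
    obtain ⟨y', hy'⟩ := h1 0 (by omega)
    rw [h0] at hy'
    exact ⟨y', f 1, hy', Or.inr ⟨fun i => f (i + 1), n, rfl, fun i hi => h1 (i + 1) (by omega),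
      a', h2⟩⟩

/-- Membership is provable. -/
lemma memF_prov (J : Iface RM) : ∀ᶠ B in rich, ∀ a z, MemF a z →
    ∃ n, Pr B n n (J.A 0 (.num a) (.num z) .zero .zero) := by
  obtain ⟨c0, h0⟩ := horn1 (α := eq (x 2) (ndT (x 1) (x 0))) (β := J.A 0 (x 2) (x 1) .zero .zero)
    (fun e h => by
      rw [J.satA (by simp [Al])]
      have h' : e 2 = nd (e 1) (e 0) := by
        have : (x 2).val e = (ndT (x 1) (x 0)).val e := h
        simpa [Tm.val] using this
      show MemF (e 2) (e 1)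
      rw [h']; exact memF_head _ _)
  obtain ⟨c1, h1⟩ := horn2 (α₁ := J.A 0 (x 0) (x 1) .zero .zero) (α₂ := eq (x 2) (ndT (x 3) (x 0)))
    (β := J.A 0 (x 2) (x 1) .zero .zero) (fun e h h' => by
      rw [J.satA (by simp [Al])] at h ⊢
      have h'' : e 2 = nd (e 3) (e 0) := by
        have : (x 2).val e = (ndT (x 3) (x 0)).val e := h'
        simpa [Tm.val] using this
      show MemF (e 2) (e 1)
      rw [h'']; exact memF_tail _ h)
  obtain ⟨f, hf, g0⟩ := eq_fact (x 2) (ndT (x 1) (x 0))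
  obtain ⟨f', hf', g1⟩ := eq_fact (x 2) (ndT (x 3) (x 0))
  filter_upwards [h0, h1, g0, g1] with B h0 h1 g0 g1
  intro a
  induction a using Nat.strong_induction_on with
  | _ a ih =>
    intro z hz
    obtain ⟨y, a', ha, h⟩ := memF_cases hz
    have hy := lt_nd_l y a'
    have ha' := lt_nd_r y a'
    rw [← ha] at hy ha'
    rcases h with rfl | h
    · set N := a + z + a' with hN
      have he : ∀ j, as [a', z, a] j ≤ N := as_le (by
        simp only [List.forall_mem_cons, List.not_mem_nil, IsEmpty.forall_iff, implies_true,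
          and_true]
        omega)
      have q := g0 _ N he (by rw [val_ndT]; exact ha)
      have := h0 _ N (c0 * (N + 1) + f N) (f N) he (by omega) (q.mono le_rfl (by omega))
      rw [J.clA (by simp [Al])] at this
      exact ⟨c0 + c0 * (N + 1) + f N, this.mono (by omega) (by omega)⟩
    · obtain ⟨n, hn⟩ := ih a' ha' z h
      set N := a + z + a' + y with hN
      have he : ∀ j, as [a', z, a, y] j ≤ N := as_le (by
        simp only [List.forall_mem_cons, List.not_mem_nil, IsEmpty.forall_iff, implies_true,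
          and_true]
        omega)
      have q := g1 _ N he (by rw [val_ndT]; exact ha)
      have := h1 _ N (c1 * (N + 1) + f' N + n) n (f' N) he (by omega)
        (by rw [J.clA (by simp [Al])]; exact hn.mono le_rfl (by omega))
        (q.mono le_rfl (by omega))
      rw [J.clA (by simp [Al])] at this
      exact ⟨c1 + n + c1 * (N + 1) + f' N + n, this.mono (by omega) (by omega)⟩

end Helper31Con.H5

end

section

/-!
# The formulas of the construction and their meaning
-/

namespace Helper31Con.H5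

open Function Filter Fm

/-! ### Meaning -/

section Sem

/-- The consistency condition. -/
def sCC (con : Fm) (c V m : ℕ) : Prop := ∀ L D j, V = nd (nd L D) j → tw V V ≤ m →
  ∀ q, D * q ≤ m → q ≤ m → ∀ z, CdT con 0 V c z → cP con z (2 ^ q)

/-- The instances of `u`. -/
def sFF (u : Fm) (V m : ℕ) : Prop := ∀ L D j, V = nd (nd L D) j → ∀ t, MemF L t → cP u t m

/-- The axiom. -/
def sXI (con u : Fm) (c V : ℕ) : Prop := ∃ m, sCC con c V m ∧ ¬ sFF u V m

end Sem

/-! ### Formulas -/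

/-- The formula `con (x_p, x_q)`. -/
def cR (con : Fm) (p q : ℕ) : Fm :=
  all 0 (all 1 (imp (eq (x 0) (x p)) (imp (eq (x 1) (x q)) con)))

/-- The formula `∀ n con (x_p, n)`. -/
def cA (con : Fm) (p : ℕ) : Fm := all 0 (imp (eq (x 0) (x p)) (all 1 con))

lemma sat_cR {con : Fm} (hu : Two con) {p q : ℕ} (hp : 2 ≤ p) (hq : 2 ≤ q) (e : ℕ → ℕ) :
    (cR con p q).Sat e ↔ cP con (e p) (e q) := by
  have key : ∀ a b, con.Sat (update (update e 0 a) 1 b) ↔ cP con a b := by
    intro a b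
    rw [hu.iff]
    simp
  have kp : ∀ a b, update (update e 0 a) 1 b p = e p := fun a b => by
    rw [update_of_ne (by omega), update_of_ne (by omega)]
  have kq : ∀ a b, update (update e 0 a) 1 b q = e q := fun a b => by
    rw [update_of_ne (by omega), update_of_ne (by omega)]
  have k0 : ∀ a b, update (update e 0 a) 1 b 0 = a := fun a b => by
    rw [update_of_ne (by omega), update_self]
  have k1 : ∀ a b, update (update e 0 a) 1 b 1 = b := fun a b => by
    rw [update_self]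
  constructor
  · intro h
    refine (key _ _).mp (h (e p) (e q) ?_ ?_)
    · show update (update e 0 (e p)) 1 (e q) 0 = update (update e 0 (e p)) 1 (e q) p
      rw [kp, k0]
    · show update (update e 0 (e p)) 1 (e q) 1 = update (update e 0 (e p)) 1 (e q) q
      rw [kq, k1]
  · intro h a b h1 h2
    have h1' : update (update e 0 a) 1 b 0 = update (update e 0 a) 1 b p := h1
    have h2' : update (update e 0 a) 1 b 1 = update (update e 0 a) 1 b q := h2
    rw [kp, k0] at h1'
    rw [kq, k1] at h2'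
    rw [key, h1', h2']; exact h

lemma sat_cA {con : Fm} (hu : Two con) {p : ℕ} (hp : 2 ≤ p) (e : ℕ → ℕ) :
    (cA con p).Sat e ↔ ∀ n, cP con (e p) n := by
  have key : ∀ a, (all 1 con).Sat (update e 0 a) ↔ ∀ n, cP con a n := by
    intro a
    refine forall_congr' fun n => ?_
    rw [hu.iff]
    simp
  constructor
  · intro h
    refine (key _).mp (h (e p) ?_)
    show update e 0 (e p) 0 = update e 0 (e p) p
    rw [update_self, update_of_ne (by omega)]
  · intro h a ha
    have ha' : update e 0 a 0 = update e 0 a p := ha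
    rw [update_self, update_of_ne (by omega)] at ha'
    rw [key, ha']; exact h

/-- A term that decomposes the version. -/
def vT : Tm := ndT (ndT (x 6) (x 8)) (x 10)

section Forms

variable {con : Fm} {g : ℕ → ℕ} {s₀ : ℕ} (I : Iface (Rel con g s₀)) (J : Iface RM) (u : Fm)

/-- The matrix of the formula for `sCC`. -/
def CM : Fm := imp (I.A 17 (x 18) (x 18) (x 12) .zero) (imp (le (x 12) (x 4))
  (imp (le (.mul (x 8) (x 14)) (x 4)) (imp (le (x 14) (x 4))
    (imp (I.A 16 (x 14) (x 1) .zero .zero) (imp (I.A 25 .zero (x 18) (x 2) (x 0)) con)))))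

/-- The formula for `sCC`. -/
def CC : Fm := all 6 (all 8 (all 10 (imp (eq (x 18) vT)
  (all 12 (all 14 (all 1 (all 0 (CM I))))))))

/-- The formula for `sFF`. -/
def FF : Fm := all 6 (all 8 (all 10 (imp (eq (x 18) vT)
  (all 1 (imp (eq (x 1) (x 4)) (FT u J 6))))))

/-- The formula for the negation of `sXI`. -/
def NX : Fm := all 4 (imp (CC I) (FF J u))

/-- The formula for `sXI`. -/
def XI : Fm := neg (NX I J u)

end Forms

section SatLemmas

variable {con : Fm} {g : ℕ → ℕ} {s₀ : ℕ} {I : Iface (Rel con g s₀)} {J : Iface RM} {u : Fm}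

lemma val_vT (e : ℕ → ℕ) : vT.val e = nd (nd (e 6) (e 8)) (e 10) := by
  simp [vT, Tm.val]

lemma sat_CM (hcon : IsCon con) (e : ℕ → ℕ) : (CM I).Sat e ↔
    (e 12 = tw (e 18) (e 18) → e 12 ≤ e 4 → e 8 * e 14 ≤ e 4 → e 14 ≤ e 4 → e 1 = 2 ^ e 14 →
      CdT con 0 (e 18) (e 2) (e 0) → cP con (e 0) (e 1)) := by
  show (_ → _ → _ → _ → _ → _ → _) ↔ _
  rw [I.satA (by simp [Al]), I.satA (by simp [Al]), I.satA (by simp [Al]), hcon.cP_iff]
  exact Iff.rfl

lemma sat_CC (hcon : IsCon con) (e : ℕ → ℕ) : (CC I).Sat e ↔ sCC con (e 2) (e 18) (e 4) := by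
  have key : ∀ L D j T q y z, ∀ e' : ℕ → ℕ,
      e' = update (update (update (update (update (update (update e 6 L) 8 D) 10 j) 12 T) 14 q) 1 y)
        0 z → ((CM I).Sat e' ↔ (T = tw (e 18) (e 18) → T ≤ e 4 → D * q ≤ e 4 → q ≤ e 4 →
          y = 2 ^ q → CdT con 0 (e 18) (e 2) z → cP con z y)) := by
    rintro L D j T q y z e' rfl
    rw [sat_CM hcon]
    simp (disch := decide) only [update_self, update_of_ne]
  have key2 : ∀ L D j, (eq (x 18) vT).Sat (update (update (update e 6 L) 8 D) 10 j) ↔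
      e 18 = nd (nd L D) j := by
    intro L D j
    show (x 18).val _ = vT.val _ ↔ _
    rw [val_vT]
    simp (disch := decide) only [Tm.val, update_self, update_of_ne]
  constructor
  · intro h L D j hV hT q hq hq' z hz
    exact (key L D j (tw (e 18) (e 18)) q (2 ^ q) z _ rfl).mp
      (h L D j ((key2 _ _ _).mpr hV) _ q _ z) rfl hT hq hq' rfl hz
  · intro h L D j hV T q y z
    refine (key L D j T q y z _ rfl).mpr fun h1 h2 h3 h4 h5 h6 => ?_
    rw [h5]
    exact h L D j ((key2 _ _ _).mp hV) (by rw [← h1]; exact h2) q h3 h4 z h6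

lemma sat_FF (hu : Two u) (e : ℕ → ℕ) : (FF J u).Sat e ↔ sFF u (e 18) (e 4) := by
  have key2 : ∀ L D j, (eq (x 18) vT).Sat (update (update (update e 6 L) 8 D) 10 j) ↔
      e 18 = nd (nd L D) j := by
    intro L D j
    show (x 18).val _ = vT.val _ ↔ _
    rw [val_vT]
    simp (disch := decide) only [Tm.val, update_self, update_of_ne]
  have key : ∀ L D j y, (imp (eq (x 1) (x 4)) (FT u J 6)).Sat
      (update (update (update (update e 6 L) 8 D) 10 j) 1 y) ↔
      (y = e 4 → ∀ z, MemF L z → cP u z y) := by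
    intro L D j y
    show (_ → _) ↔ _
    rw [hu.sat_FT (by omega)]
    have h1 : (eq (x 1) (x 4)).Sat (update (update (update (update e 6 L) 8 D) 10 j) 1 y) ↔
        y = e 4 := by
      show (x 1).val _ = (x 4).val _ ↔ _
      simp (disch := decide) only [Tm.val, update_self, update_of_ne]
    rw [h1]
    simp (disch := decide) only [update_self, update_of_ne]
  constructor
  · intro h L D j hV t ht
    exact (key L D j (e 4)).mp (h L D j ((key2 _ _ _).mpr hV) (e 4)) rfl t ht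
  · intro h L D j hV y
    refine (key L D j y).mpr fun hy z hz => ?_
    rw [hy]
    exact h L D j ((key2 _ _ _).mp hV) z hz

lemma sat_XI (hcon : IsCon con) (hu : Two u) (e : ℕ → ℕ) :
    (XI I J u).Sat e ↔ sXI con u (e 2) (e 18) := by
  have key : ∀ m, (imp (CC I) (FF J u)).Sat (update e 4 m) ↔
      (sCC con (e 2) (e 18) m → sFF u (e 18) m) := by
    intro m
    show (_ → _) ↔ _
    rw [sat_CC hcon, sat_FF hu]
    simp (disch := decide) only [update_self, update_of_ne]
  show ¬ (∀ m, (imp (CC I) (FF J u)).Sat (update e 4 m)) ↔ _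
  simp only [key]
  unfold sXI
  push Not
  rfl

/-! ### Free variables -/

lemma free_vT {j : ℕ} (h : vT.Has j) : j = 6 ∨ j = 8 ∨ j = 10 := by
  simp only [vT, has_ndT, Tm.Has] at h
  omega

lemma free_CC (hcon : IsCon con) {j : ℕ} (h : (CC I).Free j) : j = 2 ∨ j = 4 ∨ j = 18 := by
  obtain ⟨h6, h8, h10, h | ⟨h12, h14, h1, h0, h | h | h | h | h | h | h⟩⟩ := h
  · rcases h with h | h
    · exact Or.inr (Or.inr h.symm)
    · have := free_vT h
      omega
  · rcases I.free _ _ _ _ _ _ (by simp [Al]) (by simp [Al]) (by simp [Al]) (by simp) h with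
      h | h | h | h
    · exact Or.inr (Or.inr h.symm)
    · exact Or.inr (Or.inr h.symm)
    · exact absurd h h12
    · exact absurd h (by simp [Tm.Has])
  · rcases h with h | h
    · exact absurd h h12
    · exact Or.inr (Or.inl h.symm)
  · rcases h with (h | h) | h
    · exact absurd h h8
    · exact absurd h h14
    · exact Or.inr (Or.inl h.symm)
  · rcases h with h | h
    · exact absurd h h14
    · exact Or.inr (Or.inl h.symm)
  · rcases I.free _ _ _ _ _ _ (by simp [Al]) (by simp [Al]) (by simp) (by simp) h with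
      h | h | h | h
    · exact absurd h h14
    · exact absurd h h1
    · exact absurd h (by simp [Tm.Has])
    · exact absurd h (by simp [Tm.Has])
  · rcases I.free _ _ _ _ _ _ (by simp) (by simp [Al]) (by simp [Al]) (by simp [Al]) h with
      h | h | h | h
    · exact absurd h (by simp [Tm.Has])
    · exact Or.inr (Or.inr h.symm)
    · exact Or.inl h.symm
    · exact absurd h h0
  · have := hcon.free j h
    omega

lemma free_FT (hu : Two u) {q j : ℕ} (h : (FT u J q).Free j) : j = 1 ∨ j = q := by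
  obtain ⟨h15, h | ⟨h0, h | h⟩⟩ := h
  · rcases h with h | h
    · exact absurd h h15
    · exact Or.inr h.symm
  · rcases J.free _ _ _ _ _ _ (by simp [Al]) (by simp [Al]) (by simp) (by simp) h with
      h | h | h | h
    · exact absurd h h15
    · exact absurd h h0
    · exact absurd h (by simp [Tm.Has])
    · exact absurd h (by simp [Tm.Has])
  · have := hu j h
    omega

lemma free_FF (hu : Two u) {j : ℕ} (h : (FF J u).Free j) : j = 4 ∨ j = 18 := by
  obtain ⟨h6, h8, h10, h | ⟨h1, h | h⟩⟩ := h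
  · rcases h with h | h
    · exact Or.inr h.symm
    · have := free_vT h
      omega
  · rcases h with h | h
    · exact absurd h h1
    · exact Or.inl h.symm
  · rcases free_FT hu h with h | h
    · omega
    · omega

lemma free_XI (hcon : IsCon con) (hu : Two u) {j : ℕ} (h : (XI I J u).Free j) :
    j = 2 ∨ j = 18 := by
  have h' : (NX I J u).Free j := (free_neg _ _).mp h
  obtain ⟨h4, h | h⟩ := h'
  · rcases free_CC hcon h with h | h | h
    · exact Or.inl h
    · omega
    · exact Or.inr h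
  · rcases free_FF hu h with h | h
    · omega
    · exact Or.inr h

end SatLemmas

end Helper31Con.H5

end

section

/-!
# The theories of the construction
-/

namespace Helper31Con.H5

open Function Filter Fm

variable {con : Fm} {g : ℕ → ℕ} {s₀ : ℕ}

section Th

variable (I : Iface (Rel con g s₀)) (J : Iface RM) (u : Fm) (T : List Fm)

/-- The package. -/
def pk : ℕ := nd (lc T) (lc [XI I J u])

/-- The axioms `A_V`. -/
def AU (V : ℕ) : List Fm := th 18 (pk I J u T) V (XI I J u) :: T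

/-- The theory `A_V + Con`. -/
def SU (V : ℕ) : List Fm := conS con (AU I J u T V) :: AU I J u T V

variable {I J u T}

lemma cdA_iff {V z : ℕ} : CdA 0 V (pk I J u T) z ↔ z = lc (AU I J u T V) := by
  constructor
  · rintro ⟨lb, P, ξ, h1, ⟨l, φ, h2, h3, h4⟩, h5⟩
    obtain ⟨h6, h7⟩ := nd_inj.mp h1
    rw [h2] at h7
    obtain rfl := lc_inj h7
    obtain rfl : XI I J u = φ := Option.some.inj h3
    rw [h5, h4, ← h6]; rfl
  · rintro rfl
    exact ⟨lc T, lc [XI I J u], fc (XI I J u), rfl, ⟨[XI I J u], _, rfl, rfl, rfl⟩, rfl⟩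

lemma cdT_iff {V z : ℕ} : CdT con 0 V (pk I J u T) z ↔ z = lc (SU I J u T V) := by
  constructor
  · rintro ⟨z', h1, h2⟩
    rw [cdA_iff] at h1
    subst h1
    exact h2
  · rintro rfl
    exact ⟨lc (AU I J u T V), cdA_iff.mpr rfl, rfl⟩

variable (hcon : IsCon con) (hu : Two u)
include hcon hu

lemma th_sentence (V : ℕ) : Fm.Sentence (th 18 (pk I J u T) V (XI I J u)) := by
  intro j h
  obtain ⟨h1, h2 | ⟨h2, h3 | h3⟩⟩ := h
  · rcases h2 with h2 | h2
    · exact h1 h2
    · exact Tm.not_has_num _ _ h2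
  · rcases h3 with h3 | h3
    · exact h2 h3
    · exact Tm.not_has_num _ _ h3
  · rcases free_XI hcon hu h3 with h | h
    · exact h1 h.symm
    · exact h2 h.symm

lemma th_sat (V : ℕ) (e : ℕ → ℕ) : (th 18 (pk I J u T) V (XI I J u)).Sat e ↔
    sXI con u (pk I J u T) V := by
  simp only [th, Fm.Sat, Tm.val, update_self, Tm.val_num]
  constructor
  · intro h
    have := h _ rfl _ rfl
    rw [sat_XI hcon hu, update_self, update_of_ne (show (2 : ℕ) ≠ 18 by omega),
      update_self] at this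
    exact this
  · rintro h c rfl v rfl
    rw [sat_XI hcon hu, update_self, update_of_ne (show (2 : ℕ) ≠ 18 by omega), update_self]
    exact h

lemma thO_sat' (e : ℕ → ℕ) : (thO 18 3 13 (XI I J u)).Sat e ↔ sXI con u (e 3) (e 13) := by
  rw [thO_sat (by omega) (by omega) (by omega), sat_XI hcon hu, update_self,
    update_of_ne (show (2 : ℕ) ≠ 18 by omega), update_self]

lemma thO_cl' (e : ℕ → ℕ) :
    (thO 18 3 13 (XI I J u)).cl e = th 18 (e 3) (e 13) (XI I J u) :=
  thO_cl (fun _ hk => free_XI hcon hu hk) (by omega) (by omega) (by omega) (by omega) e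

variable (hT : ∀ β ∈ T, Fm.Sentence β)
include hT

lemma AU_sentence (V : ℕ) : ∀ φ ∈ AU I J u T V, Fm.Sentence φ := by
  intro φ hφ
  rcases List.mem_cons.mp hφ with rfl | hφ
  · exact th_sentence hcon hu V
  · exact hT φ hφ

lemma SU_sentence (V : ℕ) : ∀ φ ∈ SU I J u T V, Fm.Sentence φ := by
  intro φ hφ
  rcases List.mem_cons.mp hφ with rfl | hφ
  · exact hcon.conS_sentence _
  · exact AU_sentence hcon hu hT V φ hφ

lemma cP_SU {V y : ℕ} : cP con (lc (SU I J u T V)) y ↔ ¬ Prov (SU I J u T V) y .bot :=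
  hcon.sat (SU I J u T V) _ (SU_sentence hcon hu hT V) rfl

end Th

end Helper31Con.H5

end

section

/-!
# Completeness for the axioms of the construction
-/

namespace Helper31Con.H5

open Function Filter Fm

/-! ### Provability without bounds -/

/-- Provability. -/
def Pv (B : List Fm) (φ : Fm) : Prop := ∃ n, Pr B n n φ

lemma Pv.of {B : List Fm} {φ : Fm} {n M : ℕ} (h : Pr B n M φ) : Pv B φ :=
  ⟨n + M, h.mono (by omega) (by omega)⟩

lemma hornP (αs : List Fm) (β : Fm) (h : ∀ e, (∀ α ∈ αs, α.Sat e) → β.Sat e) :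
    ∀ᶠ B in rich, ∀ e : ℕ → ℕ, (∃ N, ∀ k, e k ≤ N) → (∀ α ∈ αs, Pv B (α.cl e)) →
      Pv B (β.cl e) := by
  obtain ⟨c, hc⟩ := hornL αs β h
  filter_upwards [hc] with B hc e he hα
  obtain ⟨N, hN⟩ := he
  have key : ∀ l : List Fm, (∀ α ∈ l, Pv B (α.cl e)) → ∃ n, ∀ α ∈ l, Pr B n n (α.cl e) := by
    intro l
    induction l with
    | nil => intro _; exact ⟨0, fun α hα => absurd hα (by simp)⟩
    | cons α l ih =>
      intro hl
      obtain ⟨n, hn⟩ := ih fun α' h' => hl α' (List.mem_cons_of_mem _ h')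
      obtain ⟨n', hn'⟩ := hl α List.mem_cons_self
      refine ⟨n + n', fun α' h' => ?_⟩
      rcases List.mem_cons.mp h' with rfl | h'
      · exact hn'.mono (by omega) (by omega)
      · exact (hn α' h').mono (by omega) (by omega)
  obtain ⟨n, hn⟩ := key αs hα
  exact Pv.of (hc e N (c * (N + 1) + n) n hN (Nat.le_add_right _ _)
    fun α hα => (hn α hα).mono le_rfl (by omega))

lemma rich_list {D : List Fm} (hD : ∀ φ ∈ D, TrueS φ) : ∀ᶠ B in rich, ∀ φ ∈ D, φ ∈ B :=
  ⟨D, hD, fun _ hB => hB⟩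

lemma as_bdd (l : List ℕ) : ∃ N, ∀ k, as l k ≤ N := by
  induction l with
  | nil => exact ⟨0, as_le (by simp)⟩
  | cons a l ih =>
    obtain ⟨N, hN⟩ := ih
    refine ⟨N + a, fun k => ?_⟩
    cases k with
    | zero => show a ≤ _; omega
    | succ k =>
      have : as (a :: l) (k + 1) = as l k := rfl
      rw [this]
      have := hN k
      omega

section

variable {con : Fm} {g : ℕ → ℕ} {s₀ : ℕ} (I : Iface (Rel con g s₀)) (J : Iface RM) (u : Fm)
  (hcon : IsCon con) (hu : Two u)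

lemma cdT_uniq {v c z z' : ℕ} (h : CdT con 0 v c z) (h' : CdT con 0 v c z') : z = z' :=
  cdT_unique h h'

include hcon

/-- The value of the formula at codes of lists of sentences. -/
lemma cP_anti {z y y' : ℕ} (hz : LSR z) (h : cP con z y) (hy : y' ≤ y) : cP con z y' := by
  obtain ⟨T, hT, hS⟩ := hz
  have k1 : ∀ y, cP con z y ↔ ¬ Prov T y .bot := fun y => hcon.sat T (as [z, y]) hS hT
  rw [k1] at h ⊢
  exact fun h' => h (h'.mono hy)

lemma cR_rule : ∀ᶠ B in rich, ∀ e : ℕ → ℕ, (∃ N, ∀ k, e k ≤ N) → e 9 = e 0 → e 11 = e 1 →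
    Pv B (con.cl e) → Pv B ((cR con 9 11).cl e) := by
  have h0 := hornP [con, eq (x 9) (x 0), eq (x 11) (x 1)] (cR con 9 11) (fun e h => by
    rw [List.forall_mem_cons, List.forall_mem_cons, List.forall_mem_singleton, hcon.cP_iff] at h
    obtain ⟨h1, h2, h3⟩ := h
    have h2' : e 9 = e 0 := h2
    have h3' : e 11 = e 1 := h3
    rw [sat_cR hcon.two (by omega) (by omega), h2', h3']
    exact h1)
  obtain ⟨f1, _, g1⟩ := eq_fact (x 9) (x 0)
  obtain ⟨f2, _, g2⟩ := eq_fact (x 11) (x 1)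
  filter_upwards [h0, g1, g2] with B h0 g1 g2 e he h9 h11 hc
  obtain ⟨N, hN⟩ := he
  refine h0 e ⟨N, hN⟩ ?_
  rw [List.forall_mem_cons, List.forall_mem_cons, List.forall_mem_singleton]
  exact ⟨hc, Pv.of (g1 e N hN h9), Pv.of (g2 e N hN h11)⟩

/-- The consistency condition is provable if it holds. -/
lemma cc_prov {F f' : ℕ → ℕ} (hbase : ∀ᶠ B in rich, Base I F B)
    (hdec : ∀ᶠ B in rich, ∀ N, ∀ j < 16, DecR I B (f' N) N j) (hu : Two u) :
    ∀ᶠ T in rich, (∀ β ∈ T, Fm.Sentence β) → ∀ L D j m,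
      sCC con (pk I J u T) (nd (nd L D) j) m →
      ∀ e : ℕ → ℕ, (∃ N, ∀ k, e k ≤ N) → e 2 = pk I J u T → e 4 = m → e 18 = nd (nd L D) j →
      Pv T ((CC I).cl e) := by
  have r1 := hornP [I.A 17 (x 18) (x 18) (x 12) .zero, lt (x 4) (x 12)] (CC I) (fun e h => by
    rw [List.forall_mem_cons, List.forall_mem_singleton, I.satA (by simp [Al]), sat_lt] at h
    obtain ⟨h1, h2⟩ := h
    have h1' : e 12 = tw (e 18) (e 18) := h1
    have h2' : e 4 < e 12 := h2
    rw [sat_CC hcon]
    intro L D j _ hT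
    omega)
  have r2 := hornP [eq (x 18) vT, I.A 25 .zero (x 18) (x 2) (x 9), I.A 11 (x 9) .zero .zero .zero,
      cR con 9 11, I.A 16 (x 14) (x 11) .zero .zero, lt (x 4) (.mul (x 8) (.succ (x 14)))] (CC I)
    (fun e h => by
    rw [List.forall_mem_cons, List.forall_mem_cons, List.forall_mem_cons, List.forall_mem_cons,
      List.forall_mem_cons, List.forall_mem_singleton, I.satA (by simp [Al]),
      I.satA (by simp [Al]), I.satA (by simp [Al]), sat_lt,
      sat_cR hcon.two (by omega) (by omega)] at h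
    obtain ⟨h1, h2, h3, h4, h5, h6⟩ := h
    have h1' : e 18 = nd (nd (e 6) (e 8)) (e 10) := by
      have : (x 18).val e = vT.val e := h1
      rwa [val_vT] at this
    have h2' : CdT con 0 (e 18) (e 2) (e 9) := h2
    have h3' : LSR (e 9) := h3
    have h5' : e 11 = 2 ^ e 14 := h5
    have h6' : e 4 < e 8 * (e 14 + 1) := h6
    rw [sat_CC hcon]
    intro L D j hV _ q hq _ z hz
    rw [h1', nd_inj, nd_inj] at hV
    rw [← hV.1.2] at hq
    rw [cdT_uniq hz h2']
    have hlt : q < e 14 + 1 := lt_of_mul_lt_mul_left (hq.trans_lt h6') (Nat.zero_le _)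
    refine cP_anti hcon h3' h4 ?_
    rw [h5']
    exact Nat.pow_le_pow_right (by omega) (by omega))
  have r3 := hornP [eq (x 18) vT, I.A 25 .zero (x 18) (x 2) (x 9), I.A 11 (x 9) .zero .zero .zero,
      cR con 9 11, I.A 16 (x 14) (x 11) .zero .zero, le (x 4) (x 14)] (CC I)
    (fun e h => by
    rw [List.forall_mem_cons, List.forall_mem_cons, List.forall_mem_cons, List.forall_mem_cons,
      List.forall_mem_cons, List.forall_mem_singleton, I.satA (by simp [Al]),
      I.satA (by simp [Al]), I.satA (by simp [Al]),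
      sat_cR hcon.two (by omega) (by omega)] at h
    obtain ⟨h1, h2, h3, h4, h5, h6⟩ := h
    have h2' : CdT con 0 (e 18) (e 2) (e 9) := h2
    have h3' : LSR (e 9) := h3
    have h5' : e 11 = 2 ^ e 14 := h5
    have h6' : e 4 ≤ e 14 := h6
    rw [sat_CC hcon]
    intro L D j hV _ q _ hq z hz
    rw [cdT_uniq hz h2']
    refine cP_anti hcon h3' h4 ?_
    rw [h5']
    exact Nat.pow_le_pow_right (by omega) (by omega))
  have r0 := cR_rule hcon
  obtain ⟨f1, _, g1⟩ := tw_fact I
  obtain ⟨f2, _, g2⟩ := ex2_fact I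
  obtain ⟨f3, _, g3⟩ := le_fact (.succ (x 4)) (x 12)
  obtain ⟨f4, _, g4⟩ := eq_fact (x 18) vT
  obtain ⟨f5, _, g5⟩ := le_fact (.succ (x 4)) (.mul (x 8) (.succ (x 14)))
  obtain ⟨f6, _, g6⟩ := le_fact (x 4) (x 14)
  filter_upwards [r1, r2, r3, r0, g1, g2, g3, g4, g5, g6, hbase, hdec] with
    T r1 r2 r3 r0 g1 g2 g3 g4 g5 g6 hF hd hT L D j m hCC e he h2 h4 h18
  have hfree : ∀ e' : ℕ → ℕ, e' 2 = e 2 → e' 4 = e 4 → e' 18 = e 18 →
      (CC I).cl e' = (CC I).cl e := by
    intro e' a2 a4 a18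
    refine Fm.cl_congr fun j hj => ?_
    rcases free_CC hcon hj with rfl | rfl | rfl
    · exact a2
    · exact a4
    · exact a18
  obtain ⟨V, hV⟩ : ∃ V, V = nd (nd L D) j := ⟨_, rfl⟩
  rw [← hV] at hCC h18
  obtain ⟨c, hc⟩ : ∃ c, c = pk I J u T := ⟨_, rfl⟩
  rcases Nat.lt_or_ge m (tw V V) with hlt | hge
  · obtain ⟨N, hN⟩ := as_bdd [0, 0, c, 0, m, 0, 0, 0, 0, 0, 0, 0, tw V V, 0, 0, 0, 0, 0, V]
    rw [← hfree (as [0, 0, c, 0, m, 0, 0, 0, 0, 0, 0, 0, tw V V, 0, 0, 0, 0, 0, V])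
      (by rw [h2, ← hc]; rfl) h4.symm h18.symm]
    refine r1 _ ⟨N, hN⟩ ?_
    rw [List.forall_mem_cons, List.forall_mem_singleton, I.clA (by simp [Al])]
    exact ⟨Pv.of (g1 (tw V V) V V le_rfl), Pv.of (g3 _ N hN hlt)⟩
  · -- the maximal exponent
    obtain ⟨Q, hQ1, hQ2, hQ3⟩ : ∃ Q, D * Q ≤ m ∧ Q ≤ m ∧ (m < D * (Q + 1) ∨ m ≤ Q) := by
      rcases Nat.eq_zero_or_pos D with hD | hD
      · exact ⟨m, by rw [hD]; omega, le_rfl, Or.inr le_rfl⟩
      · refine ⟨m / D, Nat.mul_div_le m D, Nat.div_le_self m D, Or.inl ?_⟩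
        have := Nat.lt_mul_div_succ m hD
        exact this
    obtain ⟨s, hs⟩ : ∃ s, s = lc (SU I J u T V) := ⟨_, rfl⟩
    have hCd : CdT con 0 V c s := by rw [hc, hs]; exact cdT_iff.mpr rfl
    have hcP : cP con s (2 ^ Q) := by
      rw [hc] at hCd
      exact hCC L D j hV hge Q hQ1 hQ2 s hCd
    rw [hs] at hcP
    have hnP := (cP_SU hcon hu hT).mp hcP
    have hSU := SU_sentence (I := I) (J := J) hcon hu hT V
    set l := [s, 2 ^ Q, c, 0, m, 0, L, 0, D, s, j, 2 ^ Q, 0, 0, Q, 0, 0, 0, V] with hl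
    obtain ⟨N, hN⟩ := as_bdd l
    rw [← hfree (as l) (by rw [h2, ← hc]; rfl) h4.symm h18.symm]
    have p1 : Pv T ((eq (x 18) vT).cl (as l)) := Pv.of (g4 _ N hN (by
      rw [val_vT]; exact hV))
    have p2 : Pv T ((I.A 25 .zero (x 18) (x 2) (x 9)).cl (as l)) := by
      rw [I.clA (by simp [Al])]
      exact Pv.of (hF.cdt (V + c) 0 V c s (by omega) (by omega) (by omega) hCd)
    have p3 : Pv T ((I.A 11 (x 9) .zero .zero .zero).cl (as l)) := by
      rw [I.clA (by simp [Al])]
      exact Pv.of ((hd s 11 (by omega) s 0 0 0 le_rfl (by omega) (by omega) (by omega)).1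
        ⟨SU I J u T V, hs, hSU⟩)
    have p4 : Pv T ((cR con 9 11).cl (as l)) := by
      refine r0 _ ⟨N, hN⟩ rfl rfl ?_
      have e3 : con.cl (as l) = con.cl (as [lc (SU I J u T V), 2 ^ Q]) :=
        hcon.cl_congr hs rfl
      rw [e3]
      exact Pv.of (hF.cons (lc (SU I J u T V) + 2 ^ Q) (SU I J u T V) (2 ^ Q) hSU
        (Nat.le_add_right _ _) (Nat.le_add_left _ _) hnP)
    have p5 : Pv T ((I.A 16 (x 14) (x 11) .zero .zero).cl (as l)) := by
      rw [I.clA (by simp [Al])]
      exact Pv.of (g2 (2 ^ Q) Q le_rfl)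
    rcases hQ3 with hQ3 | hQ3
    · refine r2 _ ⟨N, hN⟩ ?_
      rw [List.forall_mem_cons, List.forall_mem_cons, List.forall_mem_cons, List.forall_mem_cons,
        List.forall_mem_cons, List.forall_mem_singleton]
      exact ⟨p1, p2, p3, p4, p5, Pv.of (g5 _ N hN hQ3)⟩
    · refine r3 _ ⟨N, hN⟩ ?_
      rw [List.forall_mem_cons, List.forall_mem_cons, List.forall_mem_cons, List.forall_mem_cons,
        List.forall_mem_cons, List.forall_mem_singleton]
      exact ⟨p1, p2, p3, p4, p5, Pv.of (g6 _ N hN hQ3)⟩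

/-- Provable completeness for the axioms of the construction. -/
lemma xi_compl {F f' : ℕ → ℕ} (hbase : ∀ᶠ B in rich, Base I F B)
    (hdec : ∀ᶠ B in rich, ∀ N, ∀ j < 16, DecR I B (f' N) N j) (hu : Two u) {D₀ : List Fm}
    (hD₀ : ∀ φ ∈ D₀, TrueS φ)
    (hneg : ∀ t n, ¬ cP u t n → ∃ k, Prov D₀ k (neg (u.cl (as [t, n])))) :
    ∀ᶠ T in rich, (∀ β ∈ T, Fm.Sentence β) → ∀ V, sXI con u (pk I J u T) V →
      Pv T (th 18 (pk I J u T) V (XI I J u)) := by
  have r1 := hornP [neg u, eq (x 4) (x 1), eq (x 18) vT, J.A 0 (x 6) (x 0) .zero .zero]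
    (neg (FF J u)) (fun e h => by
    rw [List.forall_mem_cons, List.forall_mem_cons, List.forall_mem_cons,
      List.forall_mem_singleton, J.satA (by simp [Al]), sat_neg, hu.iff] at h
    obtain ⟨h1, h2, h3, h4⟩ := h
    have h2' : e 4 = e 1 := h2
    have h3' : e 18 = nd (nd (e 6) (e 8)) (e 10) := by
      have : (x 18).val e = vT.val e := h3
      rwa [val_vT] at this
    have h4' : MemF (e 6) (e 0) := h4
    rw [sat_neg, sat_FF hu]
    intro h5
    have := h5 _ _ _ h3' _ h4'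
    rw [h2'] at this
    exact h1 this)
  have r2 := hornP [CC I, neg (FF J u), eq (x 3) (x 2), eq (x 13) (x 18)]
    (thO 18 3 13 (XI I J u)) (fun e h => by
    rw [List.forall_mem_cons, List.forall_mem_cons, List.forall_mem_cons,
      List.forall_mem_singleton, sat_neg, sat_FF hu, sat_CC hcon] at h
    obtain ⟨h1, h2, h3, h4⟩ := h
    have h3' : e 3 = e 2 := h3
    have h4' : e 13 = e 18 := h4
    rw [thO_sat' hcon hu, h3', h4']
    exact ⟨e 4, h1, h2⟩)
  have r3 := cc_prov I J u hcon hbase hdec hu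
  have r4 := memF_prov J
  obtain ⟨f1, _, g1⟩ := eq_fact (x 4) (x 1)
  obtain ⟨f2, _, g2⟩ := eq_fact (x 18) vT
  obtain ⟨f3, _, g3⟩ := eq_fact (x 3) (x 2)
  obtain ⟨f4, _, g4⟩ := eq_fact (x 13) (x 18)
  filter_upwards [r1, r2, r3, r4, g1, g2, g3, g4, rich_list hD₀] with
    T r1 r2 r3 r4 g1 g2 g3 g4 hDT hT V hV
  obtain ⟨m, hm1, hm2⟩ := hV
  unfold sFF at hm2
  push Not at hm2
  obtain ⟨L, D, j, hVL, t, ht, hut⟩ := hm2
  obtain ⟨c, hc⟩ : ∃ c, c = pk I J u T := ⟨_, rfl⟩
  rw [← hc]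
  set l := [t, m, c, c, m, 0, L, 0, D, 0, j, 0, 0, V, 0, 0, 0, 0, V] with hl
  obtain ⟨N, hN⟩ := as_bdd l
  have e1 : (thO 18 3 13 (XI I J u)).cl (as l) = th 18 c V (XI I J u) :=
    thO_cl' hcon hu (as l)
  rw [← e1]
  have p1 : Pv T ((CC I).cl (as l)) := by
    rw [hVL] at hm1
    exact r3 hT L D j m hm1 (as l) ⟨N, hN⟩ hc rfl hVL
  have p2 : Pv T ((neg (FF J u)).cl (as l)) := by
    refine r1 _ ⟨N, hN⟩ ?_
    rw [List.forall_mem_cons, List.forall_mem_cons, List.forall_mem_cons,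
      List.forall_mem_singleton]
    refine ⟨?_, Pv.of (g1 _ N hN rfl), Pv.of (g2 _ N hN ?_), ?_⟩
    · have e2 : (neg u).cl (as l) = neg (u.cl (as [t, m])) := by
        show neg (u.cl (as l)) = _
        rw [hu.cl_congr (e := as l) (e' := as [t, m]) rfl rfl]
      rw [e2]
      obtain ⟨k, hk⟩ := hneg t m hut
      exact Pv.of (hk.pr.monoT hDT)
    · rw [val_vT]; exact hVL
    · rw [J.clA (by simp [Al])]
      obtain ⟨n, hn⟩ := r4 L t ht
      exact ⟨n, hn⟩
  refine r2 _ ⟨N, hN⟩ ?_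
  rw [List.forall_mem_cons, List.forall_mem_cons, List.forall_mem_cons,
    List.forall_mem_singleton]
  exact ⟨p1, p2, Pv.of (g3 _ N hN rfl), Pv.of (g4 _ N hN rfl)⟩

end

end Helper31Con.H5

end

section

/-!
# The rules used in the derivations
-/

namespace Helper31Con.H5

open Function Filter Fm

/-! ### All instances before a bound -/

section GG

variable (J : Iface RM) (u : Fm)

/-- The instances of `u` before `x_a` for the version `x_13`. -/
def GG (a : ℕ) : Fm := all 4 (imp (lt (x 4) (x a)) (all 18 (imp (eq (x 18) (x 13)) (FF J u))))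

/-- The same with numerals. -/
def gg (a V : ℕ) : Fm :=
  all 4 (imp (lt (x 4) (.num a)) (all 18 (imp (eq (x 18) (.num V)) (FF J u))))

variable {J u}

lemma sat_GG (hu : Two u) {a : ℕ} (ha : a ≠ 4) (e : ℕ → ℕ) :
    (GG J u a).Sat e ↔ ∀ m < e a, sFF u (e 13) m := by
  have key : ∀ m V, (FF J u).Sat (update (update e 4 m) 18 V) ↔ sFF u V m := by
    intro m V
    rw [sat_FF hu]
    simp (disch := decide) only [update_self, update_of_ne]
  have k1 : ∀ m V, (eq (x 18) (x 13)).Sat (update (update e 4 m) 18 V) ↔ V = e 13 := by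
    intro m V
    show (x 18).val _ = (x 13).val _ ↔ _
    simp (disch := decide) only [Tm.val, update_self, update_of_ne]
  have k2 : ∀ m, (lt (x 4) (x a)).Sat (update e 4 m) ↔ m < e a := by
    intro m
    rw [sat_lt]
    simp only [Tm.val, update_self]
    rw [update_of_ne ha]
  constructor
  · intro h m hm
    exact (key m (e 13)).mp (h m ((k2 m).mpr hm) (e 13) ((k1 _ _).mpr rfl))
  · intro h m hm V hV
    rw [key, (k1 _ _).mp hV]
    exact h m ((k2 m).mp hm)

lemma GG_cl (hu : Two u) {a : ℕ} (ha : a ≠ 4) (e : ℕ → ℕ) :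
    (GG J u a).cl e = gg J u (e a) (e 13) := by
  set σ : ℕ → Tm := update (fun k => Tm.num (e k)) 4 (x 4) with hσ
  set σ' : ℕ → Tm := update σ 18 (x 18) with hσ'
  have a1 : σ 4 = x 4 := by rw [hσ, update_self]
  have a2 : σ a = .num (e a) := by rw [hσ, update_of_ne ha]
  have a3 : σ' 18 = x 18 := by rw [hσ', update_self]
  have a4 : σ' 13 = .num (e 13) := by
    rw [hσ', update_of_ne (by omega), hσ, update_of_ne (by omega)]
  have a5 : (FF J u).sb σ' = FF J u := by
    conv_rhs => rw [← Fm.sb_var (FF J u)]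
    refine Fm.sb_congr fun k hk => ?_
    rcases free_FF hu hk with rfl | rfl
    · rw [hσ', update_of_ne (by omega), hσ, update_self]
    · rw [hσ', update_self]
  show all 4 (imp (le (.succ (σ 4)) (σ a)) (all 18 (imp (eq (σ' 18) (σ' 13))
    ((FF J u).sb σ')))) = _
  rw [a1, a2, a3, a4, a5]; rfl

end GG

section

variable {con : Fm} {g : ℕ → ℕ} {s₀ : ℕ} (I : Iface (Rel con g s₀)) (J : Iface RM) (u : Fm)

/-! ### The rules -/

lemma R0 (hu : Two u) : ∃ c : ℕ, ∀ᶠ B in rich, ∀ e N M n, (∀ k, e k ≤ N) → c * (N + 1) ≤ M →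
    Pr B n M ((eq (x 5) .zero).cl e) → Pr B (c + n) M ((GG J u 5).cl e) := by
  refine horn1 fun e h1 => ?_
  rw [sat_GG hu (by omega)]
  have h1' : e 5 = 0 := h1
  intro m hm
  omega

lemma R1 (hu : Two u) : ∃ c : ℕ, ∀ᶠ B in rich, ∀ e N M n₁ n₂ n₃ n₄ n₅, (∀ k, e k ≤ N) →
    c * (N + 1) ≤ M →
    Pr B n₁ M ((GG J u 5).cl e) → Pr B n₂ M ((FT u J 14).cl e) →
    Pr B n₃ M ((eq (x 1) (x 5)).cl e) →
    Pr B n₄ M ((eq (x 13) (ndT (ndT (x 14) (x 8)) (x 10))).cl e) →
    Pr B n₅ M ((eq (x 9) (.succ (x 5))).cl e) →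
    Pr B (c + n₁ + n₂ + n₃ + n₄ + n₅) M ((GG J u 9).cl e) := by
  refine horn5 fun e h1 h2 h3 h4 h5 => ?_
  rw [sat_GG hu (by omega)] at h1 ⊢
  rw [hu.sat_FT (by omega)] at h2
  have h3' : e 1 = e 5 := h3
  have h4' : e 13 = nd (nd (e 14) (e 8)) (e 10) := by
    have : (x 13).val e = (ndT (ndT (x 14) (x 8)) (x 10)).val e := h4
    simpa [Tm.val] using this
  have h5' : e 9 = e 5 + 1 := h5
  intro m hm
  by_cases h6 : m < e 5
  · exact h1 m h6
  · have : m = e 5 := by omega
    rw [this]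
    intro L D j hV t ht
    rw [h4', nd_inj, nd_inj] at hV
    rw [← hV.1.1] at ht
    rw [← h3']
    exact h2 t ht

/-- The final rule for the positive alternative. -/
lemma R2 (hcon : IsCon con) (hu : Two u) : ∃ c : ℕ, ∀ᶠ B in rich, ∀ e N M n, (∀ k, e k ≤ N) →
    c * (N + 1) ≤ M →
    (∀ α ∈ [thO 18 3 13 (XI I J u), GG J u 5, eq (x 13) vT,
      I.A 17 (x 13) (x 13) (x 12) .zero, le (x 12) (x 5), le (.mul (x 8) (x 14)) (x 5),
      le (x 14) (x 5), I.A 16 (x 14) (x 9) .zero .zero, le (x 1) (x 9),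
      I.A 25 .zero (x 13) (x 3) (x 0), I.A 11 (x 0) .zero .zero .zero],
      Pr B n M (α.cl e)) → Pr B (c * (n + 1)) M (con.cl e) := by
  refine hornL _ _ fun e h => ?_
  simp only [List.forall_mem_cons] at h
  rw [I.satA (by simp [Al]), I.satA (by simp [Al]), I.satA (by simp [Al]),
    I.satA (by simp [Al]), thO_sat' hcon hu, sat_GG hu (by omega)] at h
  obtain ⟨h1, h2, h3, h4, h5, h6, h7, h8, h9, h10, h11, _⟩ := h
  have h3' : e 13 = nd (nd (e 6) (e 8)) (e 10) := by
    have : (x 13).val e = vT.val e := h3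
    rwa [val_vT] at this
  have h4' : e 12 = tw (e 13) (e 13) := h4
  have h5' : e 12 ≤ e 5 := h5
  have h6' : e 8 * e 14 ≤ e 5 := h6
  have h7' : e 14 ≤ e 5 := h7
  have h8' : e 9 = 2 ^ e 14 := h8
  have h9' : e 1 ≤ e 9 := h9
  have h10' : CdT con 0 (e 13) (e 3) (e 0) := h10
  have h11' : LSR (e 0) := h11
  obtain ⟨m, hm1, hm2⟩ := h1
  have hm : e 5 ≤ m := by
    by_contra hlt
    exact hm2 (h2 m (by omega))
  have := hm1 _ _ _ h3' (by omega) (e 14) (by omega) (by omega) _ h10'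
  rw [hcon.cP_iff]
  refine cP_anti hcon h11' this ?_
  rw [← h8']; exact h9'

/-- The refutation of the axiom. -/
lemma R3 (hcon : IsCon con) (hu : Two u) {B₂ : List Fm}
    (hB₂ : ∀ T : List Fm, (∀ β ∈ B₂, β ∈ T) → (∀ β ∈ T, Fm.Sentence β) →
      ∀ V, sXI con u (pk I J u T) V → Pv T (th 18 (pk I J u T) V (XI I J u))) :
    ∃ c : ℕ, ∀ᶠ B in rich, ∀ e N M n, (∀ k, e k ≤ N) →
    c * (N + 1) ≤ M →
    (∀ α ∈ [imp (thO 18 3 13 (XI I J u)) (imp (all 1 con) .bot),
      eq (x 3) (ndT (x 7) (.num (lc [XI I J u]))), I.A 11 (x 7) .zero .zero .zero, cA con 7,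
      I.A 24 .zero (x 13) (x 3) (x 0)] ++ B₂.map fun β => I.A 12 (x 7) (.num (fc β)) .zero .zero,
      Pr B n M (α.cl e)) →
    Pr B (c * (n + 1)) M ((neg (thO 18 3 13 (XI I J u))).cl e) := by
  refine hornL _ _ fun e h => ?_
  have hl : ∀ α ∈ [imp (thO 18 3 13 (XI I J u)) (imp (all 1 con) .bot),
      eq (x 3) (ndT (x 7) (.num (lc [XI I J u]))), I.A 11 (x 7) .zero .zero .zero, cA con 7,
      I.A 24 .zero (x 13) (x 3) (x 0)], α.Sat e := fun α hα => h α (List.mem_append_left _ hα)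
  have hr : ∀ β ∈ B₂, MeR (e 7) (fc β) := by
    intro β hβ
    have := h (I.A 12 (x 7) (.num (fc β)) .zero .zero)
      (List.mem_append_right _ (List.mem_map_of_mem hβ))
    rw [I.satA (by simp [Al])] at this
    have h' : MeR (e 7) ((Tm.num (fc β)).val e) := this
    rwa [Tm.val_num] at h'
  simp only [List.forall_mem_cons] at hl
  rw [I.satA (by simp [Al]), I.satA (by simp [Al]), sat_cA hcon.two (by omega)] at hl
  obtain ⟨h1, h2, h3, h4, h5, _⟩ := hl
  obtain ⟨T, hT, hS⟩ : LSR (e 7) := h3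
  have h2' : e 3 = pk I J u T := by
    have : (x 3).val e = (ndT (x 7) (.num (lc [XI I J u]))).val e := h2
    rw [val_ndT, Tm.val_num] at this
    show _ = nd (lc T) (lc [XI I J u])
    rw [← hT]; exact this
  have h5' : CdA 0 (e 13) (e 3) (e 0) := h5
  rw [h2', cdA_iff] at h5'
  rw [sat_neg]
  intro h6
  refine h1 h6 fun y => ?_
  rw [thO_sat' hcon hu, h2'] at h6
  have hBT : ∀ β ∈ B₂, β ∈ T := by
    intro β hβ
    have := hr β hβ
    rw [hT] at this
    exact meR_iff.mp this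
  obtain ⟨n, hn⟩ := hB₂ T hBT hS _ h6
  rw [hcon.cP_iff, update_self, update_of_ne (by omega), h5']
  have k1 : cP con (lc (AU I J u T (e 13))) y ↔ ¬ Prov (AU I J u T (e 13)) y .bot :=
    hcon.sat (AU I J u T (e 13)) _ (AU_sentence hcon hu hS _) rfl
  rw [k1]
  intro h7
  have h8 : Pr (th 18 (pk I J u T) (e 13) (XI I J u) :: T) y y .bot := h7.pr
  have h9 := h8.ded (th_sentence hcon hu (e 13))
  obtain ⟨M, hM⟩ : ∃ M, M = n + (5 * (y + (th 18 (pk I J u T) (e 13) (XI I J u)).len + 2)) :=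
    ⟨_, rfl⟩
  have h10 := (h9.mono (M' := M) le_rfl (by omega)).mp (hn.mono (M' := M) le_rfl (by omega))
  have h11 := h10.prov
  have k2 : cP con (e 7) ((5 * y + n + 1) * M) ↔ ¬ Prov T ((5 * y + n + 1) * M) .bot :=
    hcon.sat T _ hS hT
  exact (k2.mp (h4 _)) h11

/-- The instances of `u` below the threshold. -/
lemma R4 (hcon : IsCon con) (hu : Two u) : ∃ c : ℕ, ∀ᶠ B in rich, ∀ e N M n, (∀ k, e k ≤ N) →
    c * (N + 1) ≤ M →
    (∀ α ∈ [neg (thO 18 3 13 (XI I J u)), eq (x 13) vT,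
      I.A 17 (x 13) (x 13) (x 12) .zero, lt (x 1) (x 12), J.A 0 (x 6) (x 0) .zero .zero],
      Pr B n M (α.cl e)) → Pr B (c * (n + 1)) M (u.cl e) := by
  refine hornL _ _ fun e h => ?_
  simp only [List.forall_mem_cons] at h
  rw [I.satA (by simp [Al]), J.satA (by simp [Al]), sat_neg, thO_sat' hcon hu, sat_lt] at h
  obtain ⟨h1, h2, h3, h4, h5, _⟩ := h
  have h2' : e 13 = nd (nd (e 6) (e 8)) (e 10) := by
    have : (x 13).val e = vT.val e := h2
    rwa [val_vT] at this
  have h3' : e 12 = tw (e 13) (e 13) := h3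
  have h4' : e 1 < e 12 := h4
  have h5' : MemF (e 6) (e 0) := h5
  rw [hu.iff]
  by_contra h6
  exact h1 ⟨e 1, fun L D j _ hT => absurd hT (by omega), fun h7 => h6 (h7 _ _ _ h2' _ h5')⟩

/-- The instances of `u` from the advice. -/
lemma R5 (hcon : IsCon con) (hu : Two u) : ∃ c : ℕ, ∀ᶠ B in rich, ∀ e N M n, (∀ k, e k ≤ N) →
    c * (N + 1) ≤ M →
    (∀ α ∈ [neg (thO 18 3 13 (XI I J u)), eq (x 13) vT,
      I.A 25 .zero (x 13) (x 3) (x 9), I.A 11 (x 9) .zero .zero .zero, cR con 9 11,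
      I.A 16 (x 14) (x 15) .zero .zero, le (x 15) (x 11), lt (x 1) (.mul (x 8) (.succ (x 14))),
      J.A 0 (x 6) (x 0) .zero .zero],
      Pr B n M (α.cl e)) → Pr B (c * (n + 1)) M (u.cl e) := by
  refine hornL _ _ fun e h => ?_
  simp only [List.forall_mem_cons] at h
  rw [I.satA (by simp [Al]), I.satA (by simp [Al]), I.satA (by simp [Al]),
    J.satA (by simp [Al]), sat_neg, thO_sat' hcon hu, sat_lt,
    sat_cR hcon.two (by omega) (by omega)] at h
  obtain ⟨h1, h2, h3, h4, h5, h6, h7, h8, h9, _⟩ := h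
  have h2' : e 13 = nd (nd (e 6) (e 8)) (e 10) := by
    have : (x 13).val e = vT.val e := h2
    rwa [val_vT] at this
  have h3' : CdT con 0 (e 13) (e 3) (e 9) := h3
  have h4' : LSR (e 9) := h4
  have h6' : e 15 = 2 ^ e 14 := h6
  have h7' : e 15 ≤ e 11 := h7
  have h8' : e 1 < e 8 * (e 14 + 1) := h8
  have h9' : MemF (e 6) (e 0) := h9
  rw [hu.iff]
  by_contra h10
  refine h1 ⟨e 1, fun L D j hV _ q hq _ z hz => ?_, fun h7 => h10 (h7 _ _ _ h2' _ h9')⟩
  rw [h2', nd_inj, nd_inj] at hV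
  rw [← hV.1.2] at hq
  rw [cdT_uniq hz h3']
  have hlt : q < e 14 + 1 := lt_of_mul_lt_mul_left (hq.trans_lt h8') (Nat.zero_le _)
  refine cP_anti hcon h4' h5 ?_
  refine le_trans ?_ h7'
  rw [h6']
  exact Nat.pow_le_pow_right (by omega) (by omega)

/-- Auxiliary rules. -/
lemma R6 (hcon : IsCon con) : ∃ c : ℕ, ∀ᶠ B in rich, ∀ e N M n, (∀ k, e k ≤ N) →
    c * (N + 1) ≤ M →
    (∀ α ∈ [con, eq (x 9) (x 0), eq (x 11) (x 1)], Pr B n M (α.cl e)) →
    Pr B (c * (n + 1)) M ((cR con 9 11).cl e) := by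
  refine hornL _ _ fun e h => ?_
  simp only [List.forall_mem_cons] at h
  rw [hcon.cP_iff] at h
  obtain ⟨h1, h2, h3, _⟩ := h
  have h2' : e 9 = e 0 := h2
  have h3' : e 11 = e 1 := h3
  rw [sat_cR hcon.two (by omega) (by omega), h2', h3']
  exact h1

lemma R7 (hcon : IsCon con) : ∃ c : ℕ, ∀ᶠ B in rich, ∀ e N M n, (∀ k, e k ≤ N) →
    c * (N + 1) ≤ M →
    (∀ α ∈ [all 1 con, eq (x 7) (x 0)], Pr B n M (α.cl e)) →
    Pr B (c * (n + 1)) M ((cA con 7).cl e) := by
  refine hornL _ _ fun e h => ?_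
  simp only [List.forall_mem_cons] at h
  obtain ⟨h1, h2, _⟩ := h
  have h2' : e 7 = e 0 := h2
  rw [sat_cA hcon.two (by omega), h2']
  intro n
  have := h1 n
  rw [hcon.cP_iff, update_self, update_of_ne (by omega)] at this
  exact this

end

end Helper31Con.H5

end
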